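import Pool.Agent.H26.PZ.Nest

/-!
A group which commensurates elementwise a finitely generated subgroup with an atom and at most two
ends is finitely generated.
-/

set_option autoImplicit false
set_option linter.unusedSectionVars false

namespace Pool.Agent.H26.PD.PZ

open Pool.Agent.Helper158 Pool.Agent.Helper386.PD3 Pool.Agent.H26.PD.PN Pool.Agent.H26.PD.PK
  Pool.Agent.H26.PD.PS Pool.Agent.H26.PD.PT Pool.Agent.H26.PD.PX
open scoped Classical Matrix

noncomputable section

variable {G : Type} [Group G] {R N : Subgroup G} {X : Set G} {T0 : Finset G}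

/-- the group `N` commensurates `R`, elementwise -/
structure Com (R N : Subgroup G) : Prop where
  sf : ∀ n ∈ N, ∀ Y : Set G, SF R Y → SF R {x | n * x ∈ Y}
  pow : ∀ n ∈ N, ∃ i : ℕ, 0 < i ∧ n ^ i ∈ R

/-- no three ends -/
def NoThree (R : Subgroup G) : Prop := ∀ A B W : Set G, AI' R (ind A) → AI' R (ind B) →
  ¬ SF R A → ¬ SF R B → ¬ SF R W → SF R (A ∩ B) → SF R (A ∩ W) → SF R (B ∩ W) → False

theorem ai_tr (hX : At R X) (hC : Com R N) {n : G} (hn : n ∈ N) : AI' R (ind {x | n * x ∈ X}) := by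
  intro g
  rw [mem_IV_iff]
  refine (hC.sf n hn _ (mem_IV_iff.1 (hX.ai g))).mono ?_
  intro x hx h
  apply hx
  change ind X (n * x * g) - ind X (n * x) = 0 at h
  change ind {x | n * x ∈ X} (x * g) - ind {x | n * x ∈ X} x = 0
  rw [mul_assoc] at h
  exact h

theorem half (hX : At R X) (hC : Com R N) {n : G} (hn : n ∈ N) :
    SF R {x | x ∈ X ∧ n * x ∈ X} ∨ SF R {x | x ∈ X ∧ n * x ∉ X} := by
  obtain ⟨v, hv⟩ := hX.atom _ (ai_tr hX hC hn)
  by_cases h1 : v = 1
  · right
    refine hv.mono ?_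
    rintro x ⟨hx, hnx⟩
    refine ⟨hx, ?_⟩
    rw [h1]
    unfold ind
    rw [if_neg (show x ∉ {x | n * x ∈ X} from hnx)]
    exact zero_ne_one
  · left
    refine hv.mono ?_
    rintro x ⟨hx, hnx⟩
    refine ⟨hx, ?_⟩
    unfold ind
    rw [if_pos (show x ∈ {x | n * x ∈ X} from hnx)]
    exact fun h => h1 h.symm

theorem dich (hX : At R X) (hC : Com R N) {n : G} (hn : n ∈ N) :
    SF R {x | x ∈ X ∧ n * x ∈ X} ∨
      (SF R {x | x ∈ X ∧ n * x ∉ X} ∧ SF R {x | x ∉ X ∧ n * x ∈ X}) := by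
  rcases half hX hC hn with h | h
  · exact Or.inl h
  rcases half hX hC (inv_mem hn) with h' | h'
  · left
    refine (hC.sf n hn _ h').mono ?_
    rintro x ⟨hx, hnx⟩
    refine ⟨hnx, ?_⟩
    rw [inv_mul_cancel_left]
    exact hx
  · right
    refine ⟨h, (hC.sf n hn _ h').mono ?_⟩
    rintro x ⟨hx, hnx⟩
    refine ⟨hnx, ?_⟩
    rw [inv_mul_cancel_left]
    exact hx

theorem SF.biUnion {ι : Type} {s : Set ι} (hs : s.Finite) {Y : ι → Set G}
    (h : ∀ i ∈ s, SF R (Y i)) : SF R (⋃ i ∈ s, Y i) := by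
  unfold SF
  rw [Set.image_iUnion₂]
  exact hs.biUnion h

/-- **Finite generation.** -/
theorem fg_of_com (hT0 : Subgroup.closure (T0 : Set G) = ⊤) (hR : R.FG) (hX : At R X)
    (hRN : R ≤ N) (hC : Com R N) (h3 : NoThree R) : N.FG := by
  let Δ : Set G := ⋃ t ∈ (T0 : Set G),
    ({x | ¬ (x ∈ X ↔ x * t ∈ X)} ∪ {x | ¬ (x ∈ X ↔ x * t⁻¹ ∈ X)})
  have hai : ∀ g, SF R {x | ¬ (x ∈ X ↔ x * g ∈ X)} := by
    intro g
    refine (mem_IV_iff.1 (hX.ai g)).mono ?_
    intro x hx h
    apply hx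
    change (if x * g ∈ X then (1 : ℤ) else 0) - (if x ∈ X then 1 else 0) = 0 at h
    by_cases h1 : x ∈ X <;> by_cases h2 : x * g ∈ X
    · exact ⟨fun _ => h2, fun _ => h1⟩
    · rw [if_pos h1, if_neg h2] at h
      exact absurd h (by norm_num)
    · rw [if_neg h1, if_pos h2] at h
      exact absurd h (by norm_num)
    · exact ⟨fun h => absurd h h1, fun h => absurd h h2⟩
  have hΔ : SF R Δ := SF.biUnion T0.finite_toSet fun t _ => (hai t).union (hai t⁻¹)
  obtain ⟨B, hBf, h1B, hΔB, hconn⟩ := exists_conn hT0 hR hΔ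
  have hbd : ∀ x, ∀ t ∈ T0, ¬ (x ∈ X ↔ x * t ∈ X) →
      x ∈ {x | ∃ r ∈ R, ∃ b ∈ B, x = r * b} ∧ x * t ∈ {x | ∃ r ∈ R, ∃ b ∈ B, x = r * b} := by
    intro x t ht h
    refine ⟨hΔB x (Set.mem_biUnion (Finset.mem_coe.2 ht) (Or.inl h)),
      hΔB (x * t) (Set.mem_biUnion (Finset.mem_coe.2 ht) (Or.inr ?_))⟩
    change ¬ (x * t ∈ X ↔ x * t * t⁻¹ ∈ X)
    rw [mul_inv_cancel_right]
    exact fun h' => h h'.symm
  let F : Set G := {g | g ∈ N ∧ ∃ b ∈ B, ∃ b' ∈ B, g = b' * b⁻¹}
  have hF : F.Finite := by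
    refine (Set.Finite.image2 (fun b b' => b' * b⁻¹) hBf hBf).subset ?_
    rintro g ⟨-, b, hb, b', hb', rfl⟩
    exact ⟨b, hb, b', hb', rfl⟩
  have hplus : ∀ n ∈ N, SF R {x | x ∈ X ∧ n * x ∉ X} → SF R {x | x ∉ X ∧ n * x ∈ X} →
      n ∈ Subgroup.closure ((R : Set G) ∪ F) := by
    intro n hn hp1 hp2
    obtain ⟨i, hi, hni⟩ := hC.pow n hn
    obtain ⟨x, ⟨r, hr, b, hb, rfl⟩, ⟨r', hr', b', hb', hx⟩⟩ := meet_of_plus (R := R) hT0
      (E := {x | ∃ r ∈ R, ∃ b ∈ B, x = r * b}) ⟨1, one_mem _, 1, h1B, by rw [mul_one]⟩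
      hconn hbd hX.inf hX.coinf hX.left hi hni hp1 hp2
    have h1 : n = r' * (b' * b⁻¹) * r⁻¹ := by
      have : n = n * (r * b) * b⁻¹ * r⁻¹ := by group
      rw [this, hx]
      group
    have h2 : b' * b⁻¹ ∈ N := by
      have : b' * b⁻¹ = r'⁻¹ * n * r := by rw [h1]; group
      rw [this]
      exact mul_mem (mul_mem (inv_mem (hRN hr')) hn) (hRN hr)
    rw [h1]
    refine mul_mem (mul_mem ?_ ?_) (inv_mem ?_)
    · exact Subgroup.subset_closure (Or.inl hr')
    · exact Subgroup.subset_closure (Or.inr ⟨h2, b, hb, b', hb', rfl⟩)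
    · exact Subgroup.subset_closure (Or.inl hr)
  -- a finite generating set
  obtain ⟨n1, hn1, hn1'⟩ : ∃ n1 ∈ N, ∀ n ∈ N,
      n ∈ Subgroup.closure ((R : Set G) ∪ F ∪ {n1}) := by
    have hmono : ∀ n1, Subgroup.closure ((R : Set G) ∪ F) ≤
        Subgroup.closure ((R : Set G) ∪ F ∪ {n1}) := fun n1 =>
      Subgroup.closure_mono Set.subset_union_left
    by_cases hall : ∀ n ∈ N, SF R {x | x ∈ X ∧ n * x ∉ X} ∧ SF R {x | x ∉ X ∧ n * x ∈ X}
    · exact ⟨1, one_mem _, fun n hn => hmono 1 (hplus n hn (hall n hn).1 (hall n hn).2)⟩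
    · push Not at hall
      obtain ⟨n1, hn1, hn1'⟩ := hall
      refine ⟨n1, hn1, fun n hn => ?_⟩
      have hd1 := (dich hX hC hn1).resolve_right fun h => hn1' h.1 h.2
      rcases dich hX hC hn with hd | hd
      swap
      · exact hmono n1 (hplus n hn hd.1 hd.2)
      have hm : n * n1⁻¹ ∈ N := mul_mem hn (inv_mem hn1)
      have hmem : n * n1⁻¹ ∈ Subgroup.closure ((R : Set G) ∪ F) := by
        rcases dich hX hC hm with hd2 | hd2
        · exfalso
          have hdeep : ∀ k ∈ N, ¬ SF R {x | k * x ∈ X} := by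
            intro k hk h
            apply hX.inf
            refine (hC.sf k⁻¹ (inv_mem hk) _ h).mono ?_
            intro x hx
            change k * (k⁻¹ * x) ∈ X
            rwa [mul_inv_cancel_left]
          refine h3 X {x | n1 * x ∈ X} {x | n * x ∈ X} hX.ai (ai_tr hX hC hn1) hX.inf
            (hdeep n1 hn1) (hdeep n hn) hd1 hd ?_
          refine (hC.sf n1 hn1 _ hd2).mono ?_
          rintro x ⟨hx1, hx2⟩
          refine ⟨hx1, ?_⟩
          have h4 : n * n1⁻¹ * (n1 * x) = n * x := by group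
          rw [h4]
          exact hx2
        · exact hplus _ hm hd2.1 hd2.2
      have h5 : n = n * n1⁻¹ * n1 := by group
      rw [h5]
      exact mul_mem (hmono n1 hmem) (Subgroup.subset_closure (Or.inr rfl))
  obtain ⟨Z, hZ, hZf⟩ := (Subgroup.fg_iff R).1 hR
  rw [Subgroup.fg_iff]
  refine ⟨Z ∪ F ∪ {n1}, ?_, (hZf.union hF).union (Set.finite_singleton _)⟩
  apply le_antisymm
  · rw [Subgroup.closure_le]
    rintro x ((hx | hx) | hx)
    · exact hRN (by rw [← hZ]; exact Subgroup.subset_closure hx)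
    · exact hx.1
    · rw [Set.mem_singleton_iff] at hx
      rw [hx]
      exact hn1
  · intro n hn
    have h1 := hn1' n hn
    have h2 : Subgroup.closure ((R : Set G) ∪ F ∪ {n1}) ≤ Subgroup.closure (Z ∪ F ∪ {n1}) := by
      rw [Subgroup.closure_le]
      rintro x ((hx | hx) | hx)
      · have h4 : R ≤ Subgroup.closure (Z ∪ F ∪ {n1}) := by
          rw [← hZ]
          exact Subgroup.closure_mono fun z hz => Or.inl (Or.inl hz)
        exact h4 hx
      · exact Subgroup.subset_closure (Or.inl (Or.inr hx))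
      · exact Subgroup.subset_closure (Or.inr hx)
    exact h2 h1

/-! ## Two ends -/

/-- Alexander duality with a duality group which embeds in the integers -/
theorem noThree {D : Type} [AddCommGroup D] [Module (RR R) D] {f : G → D} (hA : AD R D f)
    (j : D →+ ℤ) (hj : Function.Injective j) : NoThree R := by
  intro A B W hA1 hB1 hAd hBd hWd hAB hAW hBW
  obtain ⟨l, v, hl⟩ := hA.ex _ hA1
  obtain ⟨l', v', hl'⟩ := hA.ex _ hB1
  have hjj : ∀ d d' : D, j d' • d = j d • d' := by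
    intro d d'
    apply hj
    rw [map_zsmul, map_zsmul, smul_eq_mul, smul_eq_mul, mul_comm]
  have hrank : ∀ d d' : D, l d' * l' d = l d * l' d' := by
    intro d d'
    by_cases h0 : j d' = 0
    · have h1 : d' = 0 := (map_eq_zero_iff j hj).1 h0
      rw [h1, map_zero, map_zero, zero_mul, mul_zero]
    · have h1 := congrArg l (hjj d d')
      have h2 := congrArg l' (hjj d d')
      rw [map_zsmul, map_zsmul, smul_eq_mul, smul_eq_mul] at h1 h2
      have h3 : j d' * (l d' * l' d) = j d' * (l d * l' d') := by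
        calc j d' * (l d' * l' d) = l d' * (j d' * l' d) := by ring
          _ = l d' * (j d * l' d') := by rw [h2]
          _ = (j d * l d') * l' d' := by ring
          _ = (j d' * l d) * l' d' := by rw [h1]
          _ = j d' * (l d * l' d') := by ring
      exact mul_left_cancel₀ h0 h3
  have hl0 : ∃ d0, l d0 ≠ 0 := by
    by_contra h
    push Not at h
    have h1 : ∀ x, (l (f x) ≠ ind A x + v) ∨ (l (f x) = ind A x + v) := fun x => by tauto
    by_cases hv : v = 0
    · apply hAd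
      refine hl.mono ?_
      intro x hx h2
      rw [h, hv, add_zero] at h2
      unfold ind at h2
      rw [if_pos hx] at h2
      exact zero_ne_one h2
    · apply hBd
      refine (hl.union hAB).mono ?_
      intro x hx
      by_cases hxA : x ∈ A
      · exact Or.inr ⟨hxA, hx⟩
      · left
        intro h2
        rw [h] at h2
        unfold ind at h2
        rw [if_neg hxA, zero_add] at h2
        exact hv h2.symm
  obtain ⟨d0, hd0⟩ := hl0
  have hc : ∀ x, l (f x) = ind A x + v → l' (f x) = ind B x + v' →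
      l d0 * (ind B x + v') = l' d0 * (ind A x + v) := by
    intro x h1 h2
    rw [← h1, ← h2, hrank, mul_comm]
  -- points in the three sets
  have hbad := (hl.union hl').union ((hAB.union hAW).union hBW)
  obtain ⟨x, hx, hx'⟩ := exists_notSF hAd hbad
  obtain ⟨y, hy, hy'⟩ := exists_notSF hBd hbad
  obtain ⟨z, hz, hz'⟩ := exists_notSF hWd hbad
  have hx1 := hx' 1 (one_mem _)
  have hy1 := hy' 1 (one_mem _)
  have hz1 := hz' 1 (one_mem _)
  rw [one_mul] at hx1 hy1 hz1
  simp only [Set.mem_union, not_or, Set.mem_ofPred_eq, not_not, Set.mem_inter_iff, not_and]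
    at hx1 hy1 hz1
  have ex := hc x hx1.1.1 hx1.1.2
  have ey := hc y hy1.1.1 hy1.1.2
  have ez := hc z hz1.1.1 hz1.1.2
  have hxB : x ∉ B := hx1.2.1.1 hx
  have hyA : y ∉ A := fun h => hy1.2.1.1 h hy
  have hzA : z ∉ A := fun h => hz1.2.1.2 h hz
  have hzB : z ∉ B := fun h => hz1.2.2 h hz
  unfold ind at ex ey ez
  rw [if_pos hx, if_neg hxB] at ex
  rw [if_pos hy, if_neg hyA] at ey
  rw [if_neg hzA, if_neg hzB] at ez
  have h1 : l d0 = 0 := by linarith
  exact hd0 h1

end

end Pool.Agent.H26.PD.PZ
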