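import Pool.Agent.H26.PZ.Com

/-!
Subgroups of finite index of flat groups; residual finiteness.
-/

set_option autoImplicit false
set_option linter.unusedSectionVars false

namespace Pool.Agent.H26.PD.PZ

open Pool.Agent.Helper158 Pool.Agent.Helper386.PD3 Pool.Agent.H26.PD.PN Pool.Agent.H26.PD.PK
  Pool.Agent.H26.PD.PS Pool.Agent.H26.PD.PT Pool.Agent.H26.PD.PX
open scoped Classical Matrix

noncomputable section

section flat

variable {S : Type} [Group S] {χ : S →* Multiplicative ℤ} {t g : S} {k : ℤ}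

theorem BSD.ker_eq (h : BSD χ t g k) (hk : k = 1 ∨ k = -1) (x : S) (hx : χ x = 1) :
    ∃ i : ℤ, x = g ^ i := by
  obtain ⟨j, l, hj⟩ := h.hloc x hx
  refine ⟨l * k ^ j, ?_⟩
  have h1 := h.conj j (l * k ^ j)
  have h2 : l * k ^ j * k ^ j = l := by
    have h3 : k * k = 1 := by rcases hk with rfl | rfl <;> norm_num
    rw [mul_assoc, ← mul_pow, h3, one_pow, mul_one]
  rw [h2, ← hj] at h1
  exact (mul_left_cancel (mul_right_cancel h1)).symm

/-- a subgroup with a free abelian subgroup of rank two has finite index in a flat group -/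
theorem BSD.fi (h : BSD χ t g k) (hk : k = 1 ∨ k = -1)
    (htf : ∀ g : S, g ≠ 1 → ∀ k : ℤ, k ≠ 0 → g ^ k ≠ 1) (R : Subgroup S) (hZ : HasZ2 R) :
    R.index ≠ 0 := by
  obtain ⟨⟨a, ha⟩, ⟨b, hb⟩, hab, hfree⟩ := hZ
  have hfree' : ∀ p q : ℤ, a ^ p * b ^ q = 1 → p = 0 ∧ q = 0 := by
    intro p q hpq
    refine hfree p q (Subtype.ext ?_)
    simpa using hpq
  obtain ⟨ea, hea⟩ : ∃ e : ℤ, χ a = Multiplicative.ofAdd e := ⟨(χ a).toAdd, rfl⟩
  obtain ⟨eb, heb⟩ : ∃ e : ℤ, χ b = Multiplicative.ofAdd e := ⟨(χ b).toAdd, rfl⟩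
  have hne : ea ≠ 0 ∨ eb ≠ 0 := by
    by_contra hcon
    push Not at hcon
    obtain ⟨i, hi⟩ := h.ker_eq hk a (by rw [hea, hcon.1]; rfl)
    obtain ⟨j, hj⟩ := h.ker_eq hk b (by rw [heb, hcon.2]; rfl)
    have h1 := hfree' j (-i) (by
      rw [hi, hj, ← zpow_mul, ← zpow_mul, ← zpow_add]
      have : i * j + j * -i = 0 := by ring
      rw [this, zpow_zero])
    have h2 : a = 1 := by
      rw [hi]
      have : i = 0 := by omega
      rw [this, zpow_zero]
    have h3 := (hfree' 1 0 (by rw [h2]; simp)).1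
    exact one_ne_zero h3
  -- a power of `g`
  obtain ⟨m, hm0, hm⟩ : ∃ m : ℤ, m ≠ 0 ∧ g ^ m ∈ R := by
    have hc0 : χ (a ^ eb * b ^ (-ea)) = 1 := by
      rw [map_mul, map_zpow, map_zpow, hea, heb, ← ofAdd_zsmul, ← ofAdd_zsmul, ← ofAdd_add]
      have : eb • ea + (-ea) • eb = 0 := by simp only [smul_eq_mul]; ring
      rw [this]
      rfl
    obtain ⟨m, hm⟩ := h.ker_eq hk _ hc0
    refine ⟨m, ?_, ?_⟩
    · rintro rfl
      rw [zpow_zero] at hm
      have h1 := hfree' _ _ hm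
      rcases hne with h2 | h2
      · exact h2 (by omega)
      · exact h2 h1.1
    · rw [← hm]
      exact mul_mem (zpow_mem ha _) (zpow_mem hb _)
  obtain ⟨d, e, he0, hd, hde⟩ : ∃ (d : S) (e : ℤ), e ≠ 0 ∧ d ∈ R ∧
      χ d = Multiplicative.ofAdd e := by
    rcases hne with h1 | h1
    · exact ⟨a, ea, h1, ha, hea⟩
    · exact ⟨b, eb, h1, hb, heb⟩
  have hfin : Finite (S ⧸ R) := by
    refine Finite.of_surjective (fun p : Fin e.natAbs × Fin m.natAbs =>
      ((t ^ (p.1 : ℕ) * g ^ (p.2 : ℕ) : S) : S ⧸ R)) ?_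
    intro q
    obtain ⟨s, rfl⟩ := QuotientGroup.mk_surjective q
    obtain ⟨y0, hy0⟩ : ∃ y : ℤ, χ s = Multiplicative.ofAdd y := ⟨(χ s).toAdd, rfl⟩
    have hy1 := Int.emod_nonneg y0 he0
    have hy2 := Int.emod_lt_abs y0 he0
    set y := y0 % e with hy
    obtain ⟨x1, hx1⟩ := h.ker_eq hk ((t ^ y)⁻¹ * s * d ^ (-(y0 / e))) (by
      rw [map_mul, map_mul, map_inv, map_zpow, map_zpow, h.ht, hy0, hde, ← ofAdd_zsmul,
        ← ofAdd_zsmul, ← ofAdd_neg, ← ofAdd_add, ← ofAdd_add]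
      have h2 := Int.emod_add_mul_ediv y0 e
      have : -(y • (1 : ℤ)) + y0 + -(y0 / e) • e = 0 := by
        simp only [smul_eq_mul]
        rw [← hy] at h2
        linarith
      rw [this]
      rfl)
    have hx2 := Int.emod_nonneg x1 hm0
    have hx3 := Int.emod_lt_abs x1 hm0
    set x := x1 % m with hx
    have hy2' : y < (e.natAbs : ℤ) := by rw [← Int.abs_eq_natAbs]; exact hy2
    have hx3' : x < (m.natAbs : ℤ) := by rw [← Int.abs_eq_natAbs]; exact hx3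
    clear_value y x
    refine ⟨(⟨y.natAbs, by omega⟩, ⟨x.natAbs, by omega⟩), ?_⟩
    change ((t ^ y.natAbs * g ^ x.natAbs : S) : S ⧸ R) = (s : S ⧸ R)
    rw [QuotientGroup.eq]
    have e1 : t ^ y.natAbs = t ^ y := by
      rw [← zpow_natCast, Int.natAbs_of_nonneg hy1]
    have e2 : g ^ x.natAbs = g ^ x := by
      rw [← zpow_natCast, Int.natAbs_of_nonneg hx2]
    rw [e1, e2]
    have e3 : (t ^ y * g ^ x)⁻¹ * s = g ^ (-x) * g ^ x1 * d ^ (y0 / e) := by
      rw [← hx1, zpow_neg d]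
      group
    rw [e3, ← zpow_add]
    have e4 : -x + x1 = m * (x1 / m) := by
      have h2 := Int.emod_add_mul_ediv x1 m
      rw [← hx] at h2
      linarith
    rw [e4, zpow_mul]
    exact mul_mem (zpow_mem hm _) (zpow_mem hd _)
  exact Subgroup.index_ne_zero_of_finite

/-- residual finiteness from subgroups of finite index -/
theorem resF_of_fi (h : ∀ x : S, x ≠ 1 → ∃ K : Subgroup S, K.index ≠ 0 ∧ x ∉ K) : ResF S := by
  intro x hx
  obtain ⟨K, hK, hxK⟩ := h x hx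
  have : K.FiniteIndex := ⟨hK⟩
  refine ⟨S ⧸ K.normalCore, inferInstance, inferInstance, QuotientGroup.mk' K.normalCore, ?_⟩
  intro h1
  exact hxK (K.normalCore_le ((QuotientGroup.eq_one_iff x).1 h1))

theorem Cyc.resF (htf : ∀ g : S, g ≠ 1 → ∀ k : ℤ, k ≠ 0 → g ^ k ≠ 1) (h : Cyc S) : ResF S := by
  obtain ⟨c, hc⟩ := h
  refine resF_of_fi fun x hx => ?_
  obtain ⟨j, rfl⟩ := hc x
  have hc1 : c ≠ 1 := by
    rintro rfl
    exact hx (one_zpow _)
  have hM : ((j.natAbs + 1 : ℕ) : ℤ) ≠ 0 := by omega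
  let K : Subgroup S := Subgroup.zpowers (c ^ ((j.natAbs + 1 : ℕ) : ℤ))
  refine ⟨K, ?_, ?_⟩
  · have hfin : Finite (S ⧸ K) := by
      refine Finite.of_surjective (fun p : Fin (j.natAbs + 1) =>
        ((c ^ (p : ℕ) : S) : S ⧸ K)) ?_
      intro q
      obtain ⟨s, rfl⟩ := QuotientGroup.mk_surjective q
      obtain ⟨i, rfl⟩ := hc s
      have h1 := Int.emod_nonneg i hM
      have h2 := Int.emod_lt_of_pos i (b := ((j.natAbs + 1 : ℕ) : ℤ)) (by omega)
      refine ⟨⟨(i % ((j.natAbs + 1 : ℕ) : ℤ)).natAbs, by omega⟩, ?_⟩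
      change ((c ^ (i % ((j.natAbs + 1 : ℕ) : ℤ)).natAbs : S) : S ⧸ K) = ((c ^ i : S) : S ⧸ K)
      rw [QuotientGroup.eq, ← zpow_natCast, Int.natAbs_of_nonneg h1]
      refine ⟨i / ((j.natAbs + 1 : ℕ) : ℤ), ?_⟩
      change (c ^ ((j.natAbs + 1 : ℕ) : ℤ)) ^ _ = _
      rw [← zpow_mul, ← zpow_neg, ← zpow_add]
      congr 1
      have h3 := Int.emod_add_mul_ediv i ((j.natAbs + 1 : ℕ) : ℤ)
      linarith
    exact Subgroup.index_ne_zero_of_finite
  · rintro ⟨z, hz⟩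
    change (c ^ ((j.natAbs + 1 : ℕ) : ℤ)) ^ z = c ^ j at hz
    rw [← zpow_mul] at hz
    have h1 : c ^ (((j.natAbs + 1 : ℕ) : ℤ) * z - j) = 1 := by
      rw [zpow_sub, hz, mul_inv_cancel]
    have h2 : ((j.natAbs + 1 : ℕ) : ℤ) * z - j = 0 := by
      by_contra hne
      exact htf c hc1 _ hne h1
    have hj0 : j ≠ 0 := by
      rintro rfl
      exact hx (zpow_zero _)
    have h3 : ((j.natAbs + 1 : ℕ) : ℤ) ∣ j := ⟨z, by linarith⟩
    have h4 := Int.le_of_dvd (b := |j|) (abs_pos.2 hj0) ((dvd_abs _ _).2 h3)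
    rw [Int.abs_eq_natAbs] at h4
    omega

theorem BSD.form (h : BSD χ t g k) (hk : k = 1 ∨ k = -1) (x : S) : ∃ i j : ℤ, x = g ^ i * t ^ j := by
  obtain ⟨y, hy⟩ : ∃ y : ℤ, χ x = Multiplicative.ofAdd y := ⟨(χ x).toAdd, rfl⟩
  obtain ⟨i, hi⟩ := h.ker_eq hk (x * (t ^ y)⁻¹) (by
    rw [map_mul, map_inv, map_zpow, h.ht, hy, ← ofAdd_zsmul, smul_eq_mul, mul_one]
    exact mul_inv_cancel _)
  exact ⟨i, y, by rw [← hi]; group⟩

theorem BSD.inj (h : BSD χ t g k) (htf : ∀ g : S, g ≠ 1 → ∀ k : ℤ, k ≠ 0 → g ^ k ≠ 1)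
    {i j i' j' : ℤ} (he : g ^ i * t ^ j = g ^ i' * t ^ j') : i = i' ∧ j = j' := by
  have h1 := congrArg χ he
  rw [map_mul, map_zpow, map_zpow, h.hg, h.ht, one_zpow, one_mul, map_mul, map_zpow, map_zpow,
    h.hg, h.ht, one_zpow, one_mul] at h1
  have h2 : j = j' := by
    have h4 := congrArg Multiplicative.toAdd h1
    simpa using h4
  refine ⟨?_, h2⟩
  rw [h2] at he
  have h3 := mul_right_cancel he
  by_contra hne
  apply htf g h.hne (i - i') (by omega)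
  rw [zpow_sub, h3, mul_inv_cancel]

theorem BSD.resF (h : BSD χ t g k) (hk : k = 1 ∨ k = -1)
    (htf : ∀ g : S, g ≠ 1 → ∀ k : ℤ, k ≠ 0 → g ^ k ≠ 1) : ResF S := by
  refine resF_of_fi fun x hx => ?_
  obtain ⟨i0, j0, hx0⟩ := h.form hk x
  obtain ⟨M, hM, hMi, hMj⟩ : ∃ M : ℤ, 0 < M ∧ |i0| < 2 * M ∧ |j0| < 2 * M :=
    ⟨|i0| + |j0| + 1, by positivity, by have := abs_nonneg i0; have := abs_nonneg j0; linarith,
      by have := abs_nonneg i0; have := abs_nonneg j0; linarith⟩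
  have hcomm : Commute (t ^ (2 * M)) g := by
    have h1 := h.conj 2 1
    have h2 : (1 : ℤ) * k ^ 2 = 1 := by rcases hk with rfl | rfl <;> norm_num
    rw [h2, zpow_one, mul_inv_eq_iff_eq_mul] at h1
    have h3 : Commute (t ^ 2) g := h1
    have h4 : t ^ (2 * M) = (t ^ 2) ^ M := by rw [zpow_mul, zpow_ofNat]
    rw [h4]
    exact h3.zpow_left M
  have hcc : ∀ (i j : ℤ), Commute (t ^ (2 * M * j)) (g ^ i) := by
    intro i j
    rw [zpow_mul]
    exact (hcomm.zpow_left j).zpow_right i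
  let K : Subgroup S :=
    { carrier := {x | ∃ i j : ℤ, x = g ^ (2 * M * i) * t ^ (2 * M * j)}
      one_mem' := ⟨0, 0, by simp⟩
      mul_mem' := by
        rintro _ _ ⟨i, j, rfl⟩ ⟨i', j', rfl⟩
        refine ⟨i + i', j + j', ?_⟩
        rw [mul_add, mul_add, zpow_add, zpow_add]
        calc g ^ (2 * M * i) * t ^ (2 * M * j) * (g ^ (2 * M * i') * t ^ (2 * M * j'))
            = g ^ (2 * M * i) * (t ^ (2 * M * j) * g ^ (2 * M * i')) * t ^ (2 * M * j') := by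
              simp only [mul_assoc]
          _ = g ^ (2 * M * i) * (g ^ (2 * M * i') * t ^ (2 * M * j)) * t ^ (2 * M * j') := by
              rw [(hcc _ _).eq]
          _ = _ := by simp only [mul_assoc]
      inv_mem' := by
        rintro _ ⟨i, j, rfl⟩
        refine ⟨-i, -j, ?_⟩
        have h1 : (g ^ (2 * M * i) * t ^ (2 * M * j))⁻¹ = t ^ (2 * M * -j) * g ^ (2 * M * -i) := by
          rw [mul_inv_rev, ← zpow_neg, ← zpow_neg, mul_neg, mul_neg]
        rw [h1, (hcc _ _).eq] }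
  have hgK : g ^ (2 * M) ∈ K := ⟨1, 0, by simp⟩
  have htK : t ^ (2 * M) ∈ K := ⟨0, 1, by simp⟩
  refine ⟨K, h.fi hk htf K ⟨⟨_, hgK⟩, ⟨_, htK⟩, ?_, ?_⟩, ?_⟩
  · apply Subtype.ext
    change g ^ (2 * M) * t ^ (2 * M) = t ^ (2 * M) * g ^ (2 * M)
    exact ((hcomm.zpow_right (2 * M)).eq).symm
  · intro p q hpq
    have h1 : (g ^ (2 * M)) ^ p * (t ^ (2 * M)) ^ q = 1 := congrArg Subtype.val hpq
    rw [← zpow_mul, ← zpow_mul] at h1
    have h2 := h.inj htf (i' := 0) (j' := 0) (by rw [h1]; simp)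
    constructor
    · rcases mul_eq_zero.1 h2.1 with h3 | h3
      · omega
      · exact h3
    · rcases mul_eq_zero.1 h2.2 with h3 | h3
      · omega
      · exact h3
  · rintro ⟨i, j, hij⟩
    rw [hx0] at hij
    obtain ⟨h1, h2⟩ := h.inj htf hij
    have key : ∀ a b : ℤ, |a| < 2 * M → a = 2 * M * b → a = 0 := by
      intro a b ha hab
      by_contra hne
      have h3 : (2 * M) ∣ |a| := (dvd_abs _ _).2 ⟨b, hab⟩
      have h4 := Int.le_of_dvd (abs_pos.2 hne) h3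
      omega
    apply hx
    rw [hx0, key i0 i hMi h1, key j0 j hMj h2]
    simp

end flat

end

end Pool.Agent.H26.PD.PZ
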