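import Pool.Agent.H26.PZ.Main

/-!
The strong Tits alternative: final form.
-/

set_option autoImplicit false
set_option linter.unusedSectionVars false

namespace Pool.Agent.H26.PD.PZ

open Pool.Agent.Helper158 Pool.Agent.Helper386.PD3 Pool.Agent.H26.PD.PN Pool.Agent.H26.PD.PK
  Pool.Agent.H26.PD.PS Pool.Agent.H26.PD.PT Pool.Agent.H26.PD.PX
open scoped Classical Matrix

noncomputable section

theorem Cyc.isCyclic {S : Type} [Group S] (h : Cyc S) : IsCyclic S := by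
  obtain ⟨g, hg⟩ := h
  refine ⟨g, fun x => ?_⟩
  obtain ⟨k, hk⟩ := hg x
  exact ⟨k, hk.symm⟩

theorem Cyc.equiv {A B : Type} [Group A] [Group B] (e : A ≃* B) (h : Cyc A) : Cyc B := by
  obtain ⟨g, hg⟩ := h
  refine ⟨e g, fun x => ?_⟩
  obtain ⟨k, hk⟩ := hg (e.symm x)
  refine ⟨k, ?_⟩
  rw [← map_zpow, ← hk, e.apply_symm_apply]

variable {G : Type} [Group G]

theorem tits_final' {P : ℕ → Type} [∀ i, AddCommGroup (P i)]
    [∀ i, Module (MonoidAlgebra ℤ G) (P i)] {d : ∀ i, P (i + 1) →ₗ[MonoidAlgebra ℤ G] P i}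
    {ε : P 0 →+ ℤ} (hR : Helper158.Reso P d ε) (m : ℕ)
    (hm : ∀ i, m < i → Subsingleton (P i))
    [∀ i, Module.Finite (MonoidAlgebra ℤ G) (P i)]
    [∀ i, Module.Projective (MonoidAlgebra ℤ G) (P i)]
    (hcoh : ∀ i, i ≠ 3 → Subsingleton (groupCohomology (Rep.leftRegular ℤ G) i))
    (htop : Nonempty (groupCohomology (Rep.leftRegular ℤ G) 3 ≃+ ℤ))
    (N : Subgroup G) (hinf : N.index = 0) (N₀ : Subgroup N) [N₀.FiniteIndex] (hN₀ : GdI N₀)
    (hno : NoF N) :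
    (N.FG ∧ (IsCyclic N ∨ Flat N)) ∨ (¬ N.FG ∧ ∀ B : Subgroup N, B.FG → IsCyclic B) := by
  obtain ⟨w, n, e0, e1, e2, e3, d0, d1, d2, hF, hex2, hex1⟩ := exists_fully hR m hm hcoh htop
  have hOE : OE G := oe_of_H1 (hcoh 1 (by norm_num))
  have hGfg : Group.FG G := fg_of_low hF.low
  have htf : ∀ g : G, g ≠ 1 → ∀ k : ℤ, k ≠ 0 → g ^ k ≠ 1 := by
    intro g hg k hk hgk
    apply hg
    refine Pool.Agent.Q138.PD.torsion_free d ε m inferInstance hm hR.surj hR.equi hR.ex0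
      (fun i => ?_) g (isOfFinOrder_iff_zpow_eq_one.2 ⟨k, hk, hgk⟩)
    ext x
    rw [LinearMap.mem_ker]
    exact hR.ex i x
  have hNi : Infinite (G ⧸ N) := by
    rw [← not_finite_iff_infinite]
    intro h
    exact Subgroup.index_ne_zero_of_finite (H := N) hinf
  rcases tits_inf hF hex2 hex1 hOE htf N N₀ hN₀ hno with ⟨hfg, h | h⟩ | ⟨h, h'⟩
  · exact Or.inl ⟨hfg, Or.inl h.isCyclic⟩
  · exact Or.inl ⟨hfg, Or.inr (h.flat (htf_sub htf N))⟩
  · refine Or.inr ⟨h, fun B hB => ?_⟩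
    let B' : Subgroup G := B.map N.subtype
    let e : B ≃* B' := B.equivMapOfInjective N.subtype N.subtype_injective
    have hBg : Group.FG B := (Group.fg_iff_subgroup_fg B).2 hB
    have hB'g : Group.FG B' := Group.fg_of_surjective (f := e.toMonoidHom) e.surjective
    exact ((h' B' (Subgroup.map_subtype_le B) ((Group.fg_iff_subgroup_fg B').1 hB'g)).equiv
      e.symm).isCyclic

theorem tits_final {P : ℕ → Type} [∀ i, AddCommGroup (P i)]
    [∀ i, Module (MonoidAlgebra ℤ G) (P i)] {d : ∀ i, P (i + 1) →ₗ[MonoidAlgebra ℤ G] P i}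
    {ε : P 0 →+ ℤ} (hR : Helper158.Reso P d ε) (m : ℕ)
    (hm : ∀ i, m < i → Subsingleton (P i))
    [∀ i, Module.Finite (MonoidAlgebra ℤ G) (P i)]
    [∀ i, Module.Projective (MonoidAlgebra ℤ G) (P i)]
    (hcoh : ∀ i, i ≠ 3 → Subsingleton (groupCohomology (Rep.leftRegular ℤ G) i))
    (htop : Nonempty (groupCohomology (Rep.leftRegular ℤ G) 3 ≃+ ℤ))
    (N : Subgroup G) (hinf : N.index = 0) (N₀ : Subgroup N) [N₀.FiniteIndex] (hN₀ : GdI N₀) :
    (∃ F : FreeGroup (Fin 2) →* N, Function.Injective F) ∨ IsCyclic N ∨ Flat N ∨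
      (¬ N.FG ∧ ∀ B : Subgroup N, B.FG → IsCyclic B) := by
  by_cases hno : NoF N
  swap
  · left
    unfold NoF at hno
    rwa [not_not] at hno
  right
  rcases tits_final' hR m hm hcoh htop N hinf N₀ hN₀ hno with ⟨-, h | h⟩ | h
  · exact Or.inl h
  · exact Or.inr (Or.inl h)
  · exact Or.inr (Or.inr h)

end

end Pool.Agent.H26.PD.PZ
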