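import Pool.Agent.H26.PZ.Fin

/-!
The strong Tits alternative for subgroups of infinite index.
-/

set_option autoImplicit false
set_option linter.unusedSectionVars false

namespace Pool.Agent.H26.PD.PZ

open Pool.Agent.Helper158 Pool.Agent.Helper386.PD3 Pool.Agent.H26.PD.PN Pool.Agent.H26.PD.PK
  Pool.Agent.H26.PD.PS Pool.Agent.H26.PD.PT Pool.Agent.H26.PD.PX
open scoped Classical Matrix

noncomputable section

section emb

variable {S : Type} [Group S]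

/-- the duality module of a `PD_2`-group embeds in the integers -/
theorem exists_emb (hPD : PD2 S) {m : ℕ} (h : Fin m → S)
    (hgen : Subgroup.closure (Set.range h) = ⊤)
    (h2 : Module.Projective (RR S) (LinearMap.ker (bd h))) (w : S →* ℤˣ) :
    ∃ j : DS w h →+ ℤ, Function.Injective j := by
  obtain ⟨l, -, hl0⟩ := pd2_functional hPD h hgen h2
  let lK : KD w h →+ ℤ := AddMonoidHom.mk' (fun φ => l φ.toLin) (fun φ ψ => by
    rw [← map_add]
    rfl)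
  obtain ⟨j, hj⟩ := exists_lift w h lK (fun y => (hl0 _).2 ⟨fun b => dg w (y b), fun x => rfl⟩)
  refine ⟨j, (injective_iff_map_eq_zero j).2 fun d hd => ?_⟩
  obtain ⟨φ, rfl⟩ := dm_surj w h d
  rw [hj] at hd
  obtain ⟨c, hc⟩ := (hl0 _).1 hd
  rw [dm_eq_zero]
  refine ⟨fun b => dg w (c b), KD.ext fun x => ?_⟩
  have h3 : φ.toLin x = ∑ b, x.1 b * c b := hc x
  rw [iot_toLin, h3]
  exact Finset.sum_congr rfl fun b _ => by rw [dg_dg]

theorem not_cyc_of_z2 (h : HasZ2 S) (hc : Cyc S) : False := by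
  obtain ⟨a, b, -, hf⟩ := h
  obtain ⟨c, hc⟩ := hc
  obtain ⟨i, hi⟩ := hc a
  obtain ⟨j, hj⟩ := hc b
  have h1 := hf j (-i) (by
    rw [hi, hj, ← zpow_mul, ← zpow_mul, ← zpow_add]
    have : i * j + j * -i = 0 := by ring
    rw [this, zpow_zero])
  have h2 : a = 1 := by
    rw [hi]
    have : i = 0 := by omega
    rw [this, zpow_zero]
  have h3 := (hf 1 0 (by rw [h2]; simp)).1
  exact one_ne_zero h3

end emb

variable {G : Type} [Group G] {n : ℕ} {w : G →* ℤˣ} {e0 e1 e2 e3 d0 d1 d2 : MR G n}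

theorem relIndex_sf {R Q : Subgroup G} (hfi : (R.subgroupOf Q).index ≠ 0) {Y : Set G}
    (h : SF Q Y) : SF R Y := by
  have hfin : Finite (Q ⧸ R.subgroupOf Q) := by
    have : (R.subgroupOf Q).FiniteIndex := ⟨hfi⟩
    infer_instance
  refine Set.Finite.subset (Set.Finite.image2 (fun (c : Q ⧸ R.subgroupOf Q) (q : G ⧸ Q) =>
    qS R (((c.out : Q) : G)⁻¹ * (q.out)⁻¹)) Set.finite_univ h) ?_
  rintro _ ⟨y, hy, rfl⟩
  have h1 : qS Q ((qS Q y).out)⁻¹ = qS Q y := qS_out _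
  obtain ⟨s, hs, hsy⟩ := qS_eq.1 h1
  let s' : Q := ⟨s, hs⟩
  refine ⟨((s'⁻¹ : Q) : Q ⧸ R.subgroupOf Q), Set.mem_univ _, qS Q y, ⟨y, hy, rfl⟩, ?_⟩
  change qS R (((((s'⁻¹ : Q) : Q ⧸ R.subgroupOf Q).out : Q) : G)⁻¹ * ((qS Q y).out)⁻¹) = qS R y
  have h2 : (((s'⁻¹ : Q) : Q ⧸ R.subgroupOf Q).out : Q)⁻¹ * s'⁻¹ ∈ R.subgroupOf Q := by
    rw [← QuotientGroup.eq]
    exact QuotientGroup.out_eq' _
  have h3 : (((((s'⁻¹ : Q) : Q ⧸ R.subgroupOf Q).out : Q) : G)⁻¹ * s⁻¹) ∈ R := h2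
  rw [qS_eq]
  refine ⟨_, inv_mem h3, hsy.trans ?_⟩
  group

theorem com_of {R N : Subgroup G} (h : ∀ n ∈ N, ∃ Q : Subgroup G, R ≤ Q ∧ n ∈ Q ∧
    (R.subgroupOf Q).index ≠ 0) : Com R N where
  sf := by
    intro n hn Y hY
    obtain ⟨Q, hRQ, hnQ, hfi⟩ := h n hn
    refine relIndex_sf hfi ?_
    refine Set.Finite.subset (hY.of_le hRQ) ?_
    rintro _ ⟨x, hx, rfl⟩
    exact ⟨n * x, hx, qS_left hnQ x⟩
  pow := by
    intro n hn
    obtain ⟨Q, hRQ, hnQ, hfi⟩ := h n hn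
    obtain ⟨i, hi, -, hi'⟩ := Subgroup.exists_pow_mem_of_index_ne_zero hfi (⟨n, hnQ⟩ : Q)
    exact ⟨i, hi, hi'⟩

/-- flat groups, with the data -/
def FlatD (T : Type) [Group T] : Prop :=
  ∃ (χ : T →* Multiplicative ℤ) (t g : T) (k : ℤ), BSD χ t g k ∧ (k = 1 ∨ k = -1)

theorem FlatD.flat {T : Type} [Group T] (h : FlatD T)
    (htf : ∀ g : T, g ≠ 1 → ∀ k : ℤ, k ≠ 0 → g ^ k ≠ 1) : Flat T := by
  obtain ⟨χ, t, g, k, hB, hk⟩ := h
  exact hB.flat htf hk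

/-- **The strong Tits alternative** for finitely generated subgroups of infinite index. -/
theorem tits_fg' (hF : Full w e0 e1 e2 e3 d0 d1 d2)
    (hex2 : ∀ v, v ᵥ* e2 = v → v ᵥ* d1 = 0 → ∃ u, u ᵥ* d2 = v)
    (hex1 : ∀ v, v ᵥ* dgM w e1 = v → v ᵥ* dgM w d1 = 0 → ∃ u, u ᵥ* dgM w d0 = v)
    [hG : Group.FG G] (htf : ∀ g : G, g ≠ 1 → ∀ k : ℤ, k ≠ 0 → g ^ k ≠ 1) (T : Subgroup G)
    [Infinite (G ⧸ T)] (hTfg : T.FG) (hno : NoF T)
    (hcoh : ∀ B : Subgroup G, B ≤ T → B.FG → FGK B)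
    (hind : ∀ B : Subgroup G, B ≤ T → B.FG → B ≠ ⊥ → ∃ χ : B →* Multiplicative ℤ, χ ≠ 1) :
    Cyc T ∨ (FlatD T ∧ ∃ U : Subgroup G, U ≤ T ∧ U.FG ∧ (∃ Y : Set G, At U Y) ∧ PD2 U ∧
      HasZ2 U) := by
  rcases struct_sub hF hex2 htf T hTfg hno hcoh (hind T le_rfl hTfg) with h | ⟨χ, t, g, k, hB⟩
  · exact Or.inl h
  right
  have htfT := htf_sub htf T
  have htf' : ∀ g : G, g ≠ 1 → ∀ k : ℕ, 0 < k → g ^ k ≠ 1 := fun g hg k hk h =>
    htf g hg k (by omega) (by rwa [zpow_natCast])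
  obtain ⟨U, hUT, hUfg, hAt, hPD⟩ := exists_pd2_fg hF hex2 hex1 htf'
    (fun B hB hBfg m h hgen => FGK.ker (hcoh B hB hBfg) h hgen) (![t, g] : Fin 2 → T)
    (gen_two hB.hgen) (bs_not_triv htfT t g χ hB.ht hB.hg k hB.hne hB.hk hB.hrel hB.hacy)
  have : Infinite (G ⧸ U) := infinite_quot hUT
  have hZ : HasZ2 U := by
    have htfU := htf_sub htf U
    rcases struct_sub hF hex2 htf U hUfg
      (hno.of_inj (Subgroup.inclusion hUT) (Subgroup.inclusion_injective hUT))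
      (fun B hB hBfg => hcoh B (hB.trans hUT) hBfg) (hind U hUT hUfg) with ⟨c, hc⟩ | h
    · exact absurd hc (fun hc => pd2_not_cyclic hPD htfU c hc)
    · obtain ⟨χ', t', g', k', hB'⟩ := h
      have hk' := pd2_bs hPD htfU t' g' k' hB'.hne hB'.hk hB'.hrel hB'.hgen hB'.hacy
      exact hB'.z2 htfU hk'
  exact ⟨⟨χ, t, g, k, hB, hB.k_eq htfT
    (hZ.of_inj (Subgroup.inclusion hUT) (Subgroup.inclusion_injective hUT))⟩,
    U, hUT, hUfg, hAt, hPD, hZ⟩

/-- **The strong Tits alternative.** -/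
theorem tits_all (hF : Full w e0 e1 e2 e3 d0 d1 d2)
    (hex2 : ∀ v, v ᵥ* e2 = v → v ᵥ* d1 = 0 → ∃ u, u ᵥ* d2 = v)
    (hex1 : ∀ v, v ᵥ* dgM w e1 = v → v ᵥ* dgM w d1 = 0 → ∃ u, u ᵥ* dgM w d0 = v)
    [hG : Group.FG G] (htf : ∀ g : G, g ≠ 1 → ∀ k : ℤ, k ≠ 0 → g ^ k ≠ 1) (N : Subgroup G)
    [hNi : Infinite (G ⧸ N)] (hno : NoF N)
    (hcoh : ∀ B : Subgroup G, B ≤ N → B.FG → FGK B)
    (hind : ∀ B : Subgroup G, B ≤ N → B.FG → B ≠ ⊥ → ∃ χ : B →* Multiplicative ℤ, χ ≠ 1) :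
    (N.FG ∧ (Cyc N ∨ FlatD N)) ∨ (¬ N.FG ∧ ∀ B : Subgroup G, B ≤ N → B.FG → Cyc B) := by
  have hfgT : ∀ T : Subgroup G, T ≤ N → T.FG → Cyc T ∨ (FlatD T ∧
      ∃ U : Subgroup G, U ≤ T ∧ U.FG ∧ (∃ Y : Set G, At U Y) ∧ PD2 U ∧ HasZ2 U) := by
    intro T hT hTfg
    have : Infinite (G ⧸ T) := infinite_quot hT
    exact tits_fg' hF hex2 hex1 htf T hTfg
      (hno.of_inj (Subgroup.inclusion hT) (Subgroup.inclusion_injective hT))
      (fun B hB hBfg => hcoh B (hB.trans hT) hBfg) (fun B hB hBfg => hind B (hB.trans hT) hBfg)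
  by_cases hNfg : N.FG
  · rcases hfgT N le_rfl hNfg with h | h
    · exact Or.inl ⟨hNfg, Or.inl h⟩
    · exact Or.inl ⟨hNfg, Or.inr h.1⟩
  right
  refine ⟨hNfg, fun T hT hTfg => ?_⟩
  rcases hfgT T hT hTfg with h | ⟨-, U, hUT, hUfg, ⟨Y, hY⟩, hPD, hZ⟩
  · exact h
  exfalso
  apply hNfg
  obtain ⟨T0, hT0⟩ := hG.out
  have hUN : U ≤ N := hUT.trans hT
  have : Infinite (G ⧸ U) := infinite_quot hUN
  obtain ⟨m, h, hgen⟩ := exists_gens (H := U) ((Group.fg_iff_subgroup_fg U).2 hUfg)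
  obtain ⟨-, f, hA⟩ := getAD hF hex2 hex1 h hgen (FGK.ker (hcoh U hUN hUfg) h hgen)
  obtain ⟨j, hj⟩ := exists_emb hPD h hgen (projective_ker hF hex2 h hgen) (wS w U)
  refine fg_of_com hT0 hUfg hY hUN (com_of fun n hn => ?_) (noThree hA j hj)
  -- the subgroup generated by `U` and `n`
  let Q : Subgroup G := U ⊔ Subgroup.closure {n}
  have hUQ : U ≤ Q := le_sup_left
  have hnQ : n ∈ Q := (le_sup_right : Subgroup.closure {n} ≤ Q) (Subgroup.subset_closure rfl)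
  have hQN : Q ≤ N := sup_le hUN (by
    rw [Subgroup.closure_le]
    rintro x hx
    rw [Set.mem_singleton_iff] at hx
    rw [hx]
    exact hn)
  have hQfg : Q.FG := hUfg.sup ((Subgroup.fg_iff _).2 ⟨{n}, rfl, Set.finite_singleton n⟩)
  refine ⟨Q, hUQ, hnQ, ?_⟩
  have hZQ : HasZ2 Q := hZ.of_inj (Subgroup.inclusion hUQ) (Subgroup.inclusion_injective hUQ)
  rcases hfgT Q hQN hQfg with h | ⟨⟨χ, t, g, k, hB, hk⟩, -⟩
  · exact absurd h (not_cyc_of_z2 hZQ)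
  · refine hB.fi hk (htf_sub htf Q) _ ?_
    exact hZ.of_inj (Subgroup.subgroupOfEquivOfLe hUQ).symm.toMonoidHom
      (Subgroup.subgroupOfEquivOfLe hUQ).symm.injective

/-- **The strong Tits alternative**, for subgroups with a residual condition. -/
theorem tits_inf (hF : Full w e0 e1 e2 e3 d0 d1 d2)
    (hex2 : ∀ v, v ᵥ* e2 = v → v ᵥ* d1 = 0 → ∃ u, u ᵥ* d2 = v)
    (hex1 : ∀ v, v ᵥ* dgM w e1 = v → v ᵥ* dgM w d1 = 0 → ∃ u, u ᵥ* dgM w d0 = v) (hOE : OE G)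
    [hG : Group.FG G] (htf : ∀ g : G, g ≠ 1 → ∀ k : ℤ, k ≠ 0 → g ^ k ≠ 1) (N : Subgroup G)
    [hNi : Infinite (G ⧸ N)] (N₀ : Subgroup N) [N₀.FiniteIndex] (hN₀ : GdI N₀) (hno : NoF N) :
    (N.FG ∧ (Cyc N ∨ FlatD N)) ∨ (¬ N.FG ∧ ∀ B : Subgroup G, B ≤ N → B.FG → Cyc B) := by
  have htf' : ∀ g : G, g ≠ 1 → ∀ k : ℕ, 0 < k → g ^ k ≠ 1 := fun g hg k hk h =>
    htf g hg k (by omega) (by rwa [zpow_natCast])
  -- the induced subgroup of finite index
  have hfi : ∀ (T : Subgroup G) (hT : T ≤ N), (N₀.comap (Subgroup.inclusion hT)).FiniteIndex := by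
    intro T hT
    constructor
    rw [Subgroup.index_comap]
    exact Subgroup.FiniteIndex.index_ne_zero
      (H := N₀.subgroupOf (Subgroup.inclusion hT).range)
  have hcoh : ∀ T : Subgroup G, T ≤ N → T.FG → FGK T := by
    intro T hT hTfg
    have : Infinite (G ⧸ T) := infinite_quot hT
    let j : T →* N := Subgroup.inclusion hT
    have hj : Function.Injective j := Subgroup.inclusion_injective hT
    have hfi' := hfi T hT
    obtain ⟨m, h, hgen⟩ := exists_gens (H := T) ((Group.fg_iff_subgroup_fg T).2 hTfg)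
    have h1 := finite_K hF hex2 hOE htf' hTfg (N₀.comap j) (hN₀.gd.of_inj
      ({ toFun := fun t => ⟨j t.1, t.2⟩
         map_one' := by
          apply Subtype.ext
          exact map_one j
         map_mul' := fun s t => by
          apply Subtype.ext
          exact map_mul j _ _ } : N₀.comap j →* N₀) (by
        intro s t hst
        apply Subtype.ext
        exact hj (congrArg Subtype.val hst))) h hgen
    exact ⟨m, h, hgen, Module.Finite.iff_fg.1 h1⟩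
  -- subgroups of `N₀`
  have hL : LocInd N₀ := GdI.locInd hF hex2 hOE htf' N N₀ hN₀
  have hindN₀ : ∀ C : Subgroup G, C ≤ N₀.map N.subtype → C.FG → C ≠ ⊥ →
      ∃ χ : C →* Multiplicative ℤ, χ ≠ 1 := by
    intro C hC hCfg hC0
    let j : N₀ →* G := N.subtype.comp N₀.subtype
    have hj : Function.Injective j := N.subtype_injective.comp N₀.subtype_injective
    let C' : Subgroup N₀ := C.comap j
    have hmap : C'.map j = C := by
      apply le_antisymm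
      · rintro _ ⟨x, hx, rfl⟩
        exact hx
      · intro x hx
        obtain ⟨y, hy, rfl⟩ := hC hx
        exact ⟨⟨y, hy⟩, hx, rfl⟩
    let e : C' ≃* C := (C'.equivMapOfInjective j hj).trans (MulEquiv.subgroupCongr hmap)
    have hCg : Group.FG C := (Group.fg_iff_subgroup_fg C).2 hCfg
    have hC'g : Group.FG C' := Group.fg_of_surjective (f := e.symm.toMonoidHom) e.symm.surjective
    obtain ⟨χ, hχ⟩ := hL C' ((Group.fg_iff_subgroup_fg C').1 hC'g) (by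
      intro h
      apply hC0
      rw [← hmap, h, Subgroup.map_bot])
    refine ⟨χ.comp e.symm.toMonoidHom, ?_⟩
    intro h
    apply hχ
    ext x
    have h1 := congrArg (fun f : C →* Multiplicative ℤ => f (e x)) h
    change χ (e.symm (e x)) = 1 at h1
    rw [e.symm_apply_apply] at h1
    rw [h1]
    rfl
  refine tits_all hF hex2 hex1 htf N hno hcoh ?_
  intro B hB hBfg hB0
  have : Infinite (G ⧸ B) := infinite_quot hB
  refine indicable hF hex2 hOE htf' B hB0 (hcoh B hB hBfg) ?_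
  -- residual finiteness
  have hfiB := hfi B hB
  let Bc : Subgroup B := N₀.comap (Subgroup.inclusion hB)
  have hBg : Group.FG B := (Group.fg_iff_subgroup_fg B).2 hBfg
  have hBcg : Group.FG Bc := inferInstance
  let B₀ : Subgroup G := Bc.map B.subtype
  have hB₀B : B₀ ≤ B := Subgroup.map_subtype_le Bc
  let e : Bc ≃* B₀ := Bc.equivMapOfInjective B.subtype B.subtype_injective
  have hB₀g : Group.FG B₀ := Group.fg_of_surjective (f := e.toMonoidHom) e.surjective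
  have hB₀fg : B₀.FG := (Group.fg_iff_subgroup_fg B₀).1 hB₀g
  have hB₀N : B₀ ≤ N₀.map N.subtype := by
    rintro _ ⟨x, hx, rfl⟩
    exact ⟨Subgroup.inclusion hB x, hx, rfl⟩
  have : Infinite (G ⧸ B₀) := infinite_quot hB₀B
  have hres : ResF B₀ := by
    rcases tits_fg' hF hex2 hex1 htf B₀ hB₀fg
      (hno.of_inj (Subgroup.inclusion (hB₀B.trans hB))
        (Subgroup.inclusion_injective (hB₀B.trans hB)))
      (fun C hC hCfg => hcoh C (hC.trans (hB₀B.trans hB)) hCfg)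
      (fun C hC hCfg hC0 => hindN₀ C (hC.trans hB₀N) hCfg hC0) with h | ⟨⟨χ, t, g, k, hD, hk⟩, -⟩
    · exact h.resF (htf_sub htf B₀)
    · exact hD.resF hk (htf_sub htf B₀)
  exact resF_of_finiteIndex Bc (hres.of_inj e.toMonoidHom e.injective)

end

end Pool.Agent.H26.PD.PZ
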