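import Pool.Agent.H26.PZ.Fnl
import Pool.Agent.H26.PT.Fp
import Pool.Agent.H26.PD.FI
import Pool.Agent.H26.PD.FlatGrp

/-!
Kernels of homomorphisms onto the integers, and normal subgroups with virtually infinite cyclic
quotient.
-/

set_option autoImplicit false
set_option linter.unusedSectionVars false

namespace Pool.Agent.H26.PD.PZ

open Pool.Agent.Helper158 Pool.Agent.Helper386.PD3 Pool.Agent.H26.PD.PN Pool.Agent.H26.PD.PK
  Pool.Agent.H26.PD.PS Pool.Agent.H26.PD.PT Pool.Agent.H26.PD.PX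
open scoped Classical Matrix

noncomputable section

variable {G : Type} [Group G]

theorem kernel' {P : ℕ → Type} [∀ i, AddCommGroup (P i)]
    [∀ i, Module (MonoidAlgebra ℤ G) (P i)] {d : ∀ i, P (i + 1) →ₗ[MonoidAlgebra ℤ G] P i}
    {ε : P 0 →+ ℤ} (hR : Helper158.Reso P d ε) (m : ℕ)
    (hm : ∀ i, m < i → Subsingleton (P i))
    [∀ i, Module.Finite (MonoidAlgebra ℤ G) (P i)]
    [∀ i, Module.Projective (MonoidAlgebra ℤ G) (P i)]
    (hcoh : ∀ i, i ≠ 3 → Subsingleton (groupCohomology (Rep.leftRegular ℤ G) i))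
    (htop : Nonempty (groupCohomology (Rep.leftRegular ℤ G) 3 ≃+ ℤ))
    (H : Subgroup G) [H.FiniteIndex] (χ : H →* Multiplicative ℤ) (hχ : Function.Surjective χ) :
    (∃ F : FreeGroup (Fin 2) →* χ.ker, Function.Injective F) ∨
      (Flat χ.ker ∧ ∃ α, Pool.Agent.H26.PD.PC G (Fin 3 → ℝ) α) := by
  have hR' := Pool.Agent.H26.PD.reso_rs H hR
  have hfin' : ∀ i, Module.Finite (MonoidAlgebra ℤ H) (Pool.Agent.H26.PD.Rs H (P i)) :=
    fun i => inferInstance
  have hproj' : ∀ i, Module.Projective (MonoidAlgebra ℤ H) (Pool.Agent.H26.PD.Rs H (P i)) :=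
    fun i => inferInstance
  have hm' : ∀ i, m < i → Subsingleton (Pool.Agent.H26.PD.Rs H (P i)) := hm
  have hcoh' : ∀ i, i ≠ 3 → Subsingleton (groupCohomology (Rep.leftRegular ℤ H) i) := by
    intro i hi
    obtain ⟨e⟩ := Pool.Agent.H26.PD.coh_rs H hR i
    have := hcoh i hi
    exact e.toEquiv.subsingleton
  have htop' : Nonempty (groupCohomology (Rep.leftRegular ℤ H) 3 ≃+ ℤ) := by
    obtain ⟨e⟩ := Pool.Agent.H26.PD.coh_rs H hR 3
    obtain ⟨e'⟩ := htop
    exact ⟨e.trans e'⟩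
  by_cases hno : ∃ F : FreeGroup (Fin 2) →* χ.ker, Function.Injective F
  · exact Or.inl hno
  · right
    have hK : χ.ker.FG := by
      obtain ⟨w, n, e0, e1, e2, e3, d0, d1, d2, hF, -⟩ :=
        Pool.Agent.H26.PD.exists_fullx hR' m hm' hcoh' htop'
      refine (Pool.Agent.H26.PD.PT.ker_fg_or_free
        (Pool.Agent.H26.PD.PT.fgk_of_low hF.low) ?_ χ hχ).resolve_right hno
      intro B _ hfg φ hφ he
      obtain ⟨e⟩ := he
      exact Helper386.PD3.fg_base hR' m hm' hcoh' htop' (hφ := hφ) e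
    have hflat : Flat χ.ker :=
      Pool.Agent.H26.PD.kernel_structure hR' m hm' hcoh' htop' hχ hK hno
    refine ⟨hflat, ?_⟩
    obtain ⟨φ, ⟨e⟩⟩ := hflat
    exact Pool.Agent.H26.PD.pc_of_flat H χ hχ e

theorem Flat.equiv {A B : Type} [Group A] [Group B] (e : A ≃* B) (h : Flat A) : Flat B := by
  obtain ⟨φ, ⟨f⟩⟩ := h
  exact ⟨φ, ⟨e.symm.trans f⟩⟩

/-- Normal subgroups without free subgroups and with virtually infinite cyclic quotient. -/
theorem man_of_virt {P : ℕ → Type} [∀ i, AddCommGroup (P i)]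
    [∀ i, Module (MonoidAlgebra ℤ G) (P i)] {d : ∀ i, P (i + 1) →ₗ[MonoidAlgebra ℤ G] P i}
    {ε : P 0 →+ ℤ} (hR : Helper158.Reso P d ε) (m : ℕ)
    (hm : ∀ i, m < i → Subsingleton (P i))
    [∀ i, Module.Finite (MonoidAlgebra ℤ G) (P i)]
    [∀ i, Module.Projective (MonoidAlgebra ℤ G) (P i)]
    (hcoh : ∀ i, i ≠ 3 → Subsingleton (groupCohomology (Rep.leftRegular ℤ G) i))
    (htop : Nonempty (groupCohomology (Rep.leftRegular ℤ G) 3 ≃+ ℤ))
    (N : Subgroup G) [N.Normal] (H : Subgroup (G ⧸ N)) [H.FiniteIndex]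
    (e : H ≃* Multiplicative ℤ) (hno : NoF N) :
    Flat N ∧ ∃ α, Pool.Agent.H26.PD.PC G (Fin 3 → ℝ) α := by
  let q : G →* G ⧸ N := QuotientGroup.mk' N
  let H' : Subgroup G := H.comap q
  have hfi : H'.FiniteIndex := by
    constructor
    rw [Subgroup.index_comap_of_surjective H (QuotientGroup.mk'_surjective N)]
    exact Subgroup.FiniteIndex.index_ne_zero
  let r : H' →* H := (q.comp H'.subtype).codRestrict H fun x => x.2
  have hr : Function.Surjective r := by
    rintro ⟨y, hy⟩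
    obtain ⟨x, rfl⟩ := QuotientGroup.mk'_surjective N y
    exact ⟨⟨x, hy⟩, rfl⟩
  let χ : H' →* Multiplicative ℤ := e.toMonoidHom.comp r
  have hχ : Function.Surjective χ := e.surjective.comp hr
  have hker : ∀ x : H', χ x = 1 ↔ (x : G) ∈ N := by
    intro x
    change e (r x) = 1 ↔ _
    rw [MulEquiv.map_eq_one_iff, ← QuotientGroup.eq_one_iff]
    constructor
    · intro h
      exact congrArg Subtype.val h
    · intro h
      exact Subtype.ext h
  have hNH : ∀ x ∈ N, x ∈ H' := by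
    intro x hx
    change (x : G ⧸ N) ∈ H
    rw [(QuotientGroup.eq_one_iff x).2 hx]
    exact one_mem _
  let E : χ.ker ≃* N :=
    { toFun := fun x => ⟨((x : H') : G), (hker x).1 x.2⟩
      invFun := fun x => ⟨⟨x, hNH x x.2⟩, (hker _).2 x.2⟩
      left_inv := fun _ => rfl
      right_inv := fun _ => rfl
      map_mul' := fun _ _ => rfl }
  rcases kernel' hR m hm hcoh htop H' χ hχ with ⟨F, hF⟩ | ⟨hfl, hα⟩
  · exact absurd ⟨E.toMonoidHom.comp F, E.injective.comp hF⟩ hno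
  · exact ⟨hfl.equiv E, hα⟩

end

end Pool.Agent.H26.PD.PZ
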