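import Pool.Agent.H26.PZ.Tits

/-!
A subgroup which is commensurated elementwise by a group is of finite index in it, if it has an
atom and at most two ends.
-/

set_option autoImplicit false
set_option linter.unusedSectionVars false

namespace Pool.Agent.H26.PD.PZ

open Pool.Agent.Helper158 Pool.Agent.Helper386.PD3 Pool.Agent.H26.PD.PN Pool.Agent.H26.PD.PK
  Pool.Agent.H26.PD.PS Pool.Agent.H26.PD.PT Pool.Agent.H26.PD.PX
open scoped Classical Matrix

noncomputable section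

variable {G : Type} [Group G] {R N : Subgroup G} {X : Set G} {T0 : Finset G}

/-! ## Connected sets -/

/-- edges inside of a set -/
def rel (T0 : Finset G) (E : Set G) (x y : G) : Prop := x ∈ E ∧ y ∈ E ∧ ∃ t ∈ T0, y = x * t

theorem rel_trans_left {P E : Set G} {r : G} (h : ∀ p ∈ P, r * p ∈ E) {x y : G}
    (hxy : Relation.EqvGen (rel T0 P) x y) : Relation.EqvGen (rel T0 E) (r * x) (r * y) := by
  induction hxy with
  | rel x y hxy =>
    obtain ⟨h1, h2, t, ht, rfl⟩ := hxy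
    exact Relation.EqvGen.rel _ _ ⟨h _ h1, h _ h2, t, ht, by rw [mul_assoc]⟩
  | refl x => exact Relation.EqvGen.refl _
  | symm x y _ ih => exact Relation.EqvGen.symm _ _ ih
  | trans x y z _ _ ih1 ih2 => exact Relation.EqvGen.trans _ _ _ ih1 ih2

theorem exists_path (hT0 : Subgroup.closure (T0 : Set G) = ⊤) (g : G) : ∀ x : G, ∃ P : Set G,
    P.Finite ∧ x ∈ P ∧ x * g ∈ P ∧ ∀ p ∈ P, Relation.EqvGen (rel T0 P) x p := by
  have hg : g ∈ Subgroup.closure (T0 : Set G) := by rw [hT0]; trivial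
  induction hg using Subgroup.closure_induction'' with
  | mem t ht =>
    intro x
    refine ⟨{x, x * t}, Set.toFinite _, Or.inl rfl, Or.inr rfl, ?_⟩
    rintro p (rfl | rfl)
    · exact Relation.EqvGen.refl _
    · exact Relation.EqvGen.rel _ _ ⟨Or.inl rfl, Or.inr rfl, t, ht, rfl⟩
  | inv_mem t ht =>
    intro x
    refine ⟨{x, x * t⁻¹}, Set.toFinite _, Or.inl rfl, Or.inr rfl, ?_⟩
    rintro p (rfl | rfl)
    · exact Relation.EqvGen.refl _
    · exact Relation.EqvGen.symm _ _ (Relation.EqvGen.rel _ _ ⟨Or.inr rfl, Or.inl rfl, t, ht,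
        by rw [inv_mul_cancel_right]⟩)
  | one =>
    intro x
    refine ⟨{x}, Set.toFinite _, rfl, by rw [mul_one]; rfl, ?_⟩
    rintro p rfl
    exact Relation.EqvGen.refl _
  | mul a b _ _ ha hb =>
    intro x
    obtain ⟨P, hP, h1, h2, h3⟩ := ha x
    obtain ⟨P', hP', h1', h2', h3'⟩ := hb (x * a)
    have hm : ∀ {y z : G}, Relation.EqvGen (rel T0 P) y z →
        Relation.EqvGen (rel T0 (P ∪ P')) y z := fun h =>
      h.mono fun _ _ ⟨h4, h5, h6⟩ => ⟨Or.inl h4, Or.inl h5, h6⟩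
    have hm' : ∀ {y z : G}, Relation.EqvGen (rel T0 P') y z →
        Relation.EqvGen (rel T0 (P ∪ P')) y z := fun h =>
      h.mono fun _ _ ⟨h4, h5, h6⟩ => ⟨Or.inr h4, Or.inr h5, h6⟩
    refine ⟨P ∪ P', hP.union hP', Or.inl h1, Or.inr (by rw [← mul_assoc]; exact h2'), ?_⟩
    rintro p (hp | hp)
    · exact hm (h3 p hp)
    · exact Relation.EqvGen.trans _ _ _ (hm (h3 _ h2)) (hm' (h3' p hp))

/-- a connected set which contains a given set -/
theorem exists_conn (hT0 : Subgroup.closure (T0 : Set G) = ⊤) (hR : R.FG) {Δ : Set G}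
    (hΔ : SF R Δ) : ∃ B : Set G, B.Finite ∧ (1 : G) ∈ B ∧
      (∀ x ∈ Δ, ∃ r ∈ R, ∃ b ∈ B, x = r * b) ∧
      ∀ x, (∃ r ∈ R, ∃ b ∈ B, x = r * b) →
        Relation.EqvGen (rel T0 {x | ∃ r ∈ R, ∃ b ∈ B, x = r * b}) 1 x := by
  obtain ⟨Z, hZ, hZf⟩ := (Subgroup.fg_iff R).1 hR
  -- representatives
  let C : Set G := (fun q : G ⧸ R => (q.out)⁻¹) '' (qS R '' Δ)
  have hC : C.Finite := Set.Finite.image _ hΔ
  let W : Set G := Z ∪ C ∪ {1}
  have hW : W.Finite := (hZf.union hC).union (Set.finite_singleton _)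
  choose P hPf hP1 hP2 hP3 using fun g : G => exists_path hT0 g 1
  let B : Set G := ⋃ z ∈ W, P z
  have hB : B.Finite := hW.biUnion fun z _ => hPf z
  have hPB : ∀ z ∈ W, P z ⊆ B := fun z hz => Set.subset_biUnion_of_mem (u := fun z => P z) hz
  have h1W : (1 : G) ∈ W := Or.inr rfl
  let E : Set G := {x | ∃ r ∈ R, ∃ b ∈ B, x = r * b}
  have hrB : ∀ r ∈ R, ∀ z ∈ W, ∀ p ∈ P z, r * p ∈ E := fun r hr z hz p hp =>
    ⟨r, hr, p, hPB z hz hp, rfl⟩
  -- moving inside a translate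
  have hmv : ∀ r ∈ R, ∀ z ∈ W, ∀ p ∈ P z, Relation.EqvGen (rel T0 E) r (r * p) := by
    intro r hr z hz p hp
    have h1 := rel_trans_left (r := r) (hrB r hr z hz) (hP3 z p hp)
    rwa [mul_one] at h1
  have hRc : ∀ r ∈ R, ∀ r' ∈ R, Relation.EqvGen (rel T0 E) r' (r' * r) := by
    intro r hr
    rw [← hZ] at hr
    induction hr using Subgroup.closure_induction'' with
    | mem z hz =>
      intro r' hr'
      have h1 := hP2 z
      rw [one_mul] at h1
      exact hmv r' hr' z (Or.inl (Or.inl hz)) z h1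
    | inv_mem z hz =>
      intro r' hr'
      have h1 := hP2 z
      rw [one_mul] at h1
      have hzR : z ∈ R := by
        rw [← hZ]
        exact Subgroup.subset_closure hz
      have h2 := hmv (r' * z⁻¹) (mul_mem hr' (inv_mem hzR)) z (Or.inl (Or.inl hz)) z h1
      rw [inv_mul_cancel_right] at h2
      exact Relation.EqvGen.symm _ _ h2
    | one =>
      intro r' _
      rw [mul_one]
      exact Relation.EqvGen.refl _
    | mul a b ha _ iha ihb =>
      intro r' hr'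
      rw [← mul_assoc]
      rw [hZ] at ha
      exact Relation.EqvGen.trans _ _ _ (iha r' hr') (ihb _ (mul_mem hr' ha))
  refine ⟨B, hB, hPB 1 h1W (hP1 1), ?_, ?_⟩
  · intro x hx
    have h1 : qS R x ∈ qS R '' Δ := ⟨x, hx, rfl⟩
    have h2 : qS R ((qS R x).out)⁻¹ = qS R x := qS_out _
    obtain ⟨s, hs, hsx⟩ := qS_eq.1 h2
    refine ⟨s, hs, _, ?_, hsx⟩
    have h3 := hP2 ((qS R x).out)⁻¹
    rw [one_mul] at h3
    exact hPB _ (Or.inl (Or.inr ⟨_, h1, rfl⟩)) h3
  · rintro x ⟨r, hr, b, hb, rfl⟩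
    obtain ⟨z, hz, hbz⟩ := Set.mem_iUnion₂.1 hb
    have h1 := hRc r hr 1 (one_mem _)
    rw [one_mul] at h1
    exact Relation.EqvGen.trans _ _ _ h1 (hmv r hr z hz b hbz)

/-- sets without boundary -/
theorem all_of_edge (hT0 : Subgroup.closure (T0 : Set G) = ⊤) {Z : Set G}
    (h : ∀ x, ∀ t ∈ T0, x ∈ Z ↔ x * t ∈ Z) {x y : G} (hx : x ∈ Z) : y ∈ Z := by
  have h1 : ∀ g : G, ∀ z, z ∈ Z ↔ z * g ∈ Z := by
    intro g
    have hg : g ∈ Subgroup.closure (T0 : Set G) := by rw [hT0]; trivial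
    induction hg using Subgroup.closure_induction with
    | mem t ht => exact fun z => h z t ht
    | one => intro z; rw [mul_one]
    | mul a b _ _ ha hb => intro z; rw [← mul_assoc, ha z, hb]
    | inv a _ ha =>
      intro z
      have h2 := ha (z * a⁻¹)
      rw [inv_mul_cancel_right] at h2
      exact h2.symm
  have h2 := (h1 (x⁻¹ * y) x).1 hx
  rwa [mul_inv_cancel_left] at h2

/-- **Nested translates.** -/
theorem meet_of_plus (hT0 : Subgroup.closure (T0 : Set G) = ⊤) {E : Set G} (h1E : (1 : G) ∈ E)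
    (hconn : ∀ x ∈ E, Relation.EqvGen (rel T0 E) 1 x)
    (hbd : ∀ x, ∀ t ∈ T0, ¬ (x ∈ X ↔ x * t ∈ X) → x ∈ E ∧ x * t ∈ E)
    (hinf : ¬ SF R X) (hcoinf : ¬ SF R Xᶜ) (hleft : ∀ r ∈ R, ∀ x, r * x ∈ X ↔ x ∈ X)
    {n : G} {i : ℕ} (hi : 0 < i) (hni : n ^ i ∈ R)
    (hp1 : SF R {x | x ∈ X ∧ n * x ∉ X}) (hp2 : SF R {x | x ∉ X ∧ n * x ∈ X}) :
    ∃ x ∈ E, n * x ∈ E := by
  by_contra hcon
  push Not at hcon
  -- the sides
  have s1 : ∀ x ∈ E, (n * x ∈ X ↔ n ∈ X) := by
    have h1 : ∀ x y, Relation.EqvGen (rel T0 E) x y → (n * x ∈ X ↔ n * y ∈ X) := by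
      intro x y hxy
      induction hxy with
      | rel x y hxy =>
        obtain ⟨h1, h2, t, ht, rfl⟩ := hxy
        by_contra h3
        rw [← mul_assoc] at h3
        exact hcon x h1 (hbd (n * x) t ht h3).1
      | refl x => exact Iff.rfl
      | symm x y _ ih => exact ih.symm
      | trans x y z _ _ ih1 ih2 => exact ih1.trans ih2
    intro x hx
    have h2 := h1 1 x (hconn x hx)
    rw [mul_one] at h2
    exact h2.symm
  have s2 : ∀ x, n * x ∈ E → (x ∈ X ↔ n⁻¹ ∈ X) := by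
    have h1 : ∀ x y, Relation.EqvGen (rel T0 E) x y → (n⁻¹ * x ∈ X ↔ n⁻¹ * y ∈ X) := by
      intro x y hxy
      induction hxy with
      | rel x y hxy =>
        obtain ⟨h1, h2, t, ht, rfl⟩ := hxy
        by_contra h3
        rw [← mul_assoc] at h3
        refine hcon (n⁻¹ * x) (hbd (n⁻¹ * x) t ht h3).1 ?_
        rwa [mul_inv_cancel_left]
      | refl x => exact Iff.rfl
      | symm x y _ ih => exact ih.symm
      | trans x y z _ _ ih1 ih2 => exact ih1.trans ih2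
    intro x hx
    have h2 := h1 1 (n * x) (hconn _ hx)
    rw [mul_one, inv_mul_cancel_left] at h2
    exact h2.symm
  -- a boundary edge
  obtain ⟨p, hp⟩ : X.Nonempty := by
    by_contra h
    rw [Set.not_nonempty_iff_eq_empty] at h
    apply hinf
    rw [h]
    unfold SF
    rw [Set.image_empty]
    exact Set.finite_empty
  obtain ⟨q, hq⟩ : Xᶜ.Nonempty := by
    by_contra h
    rw [Set.not_nonempty_iff_eq_empty] at h
    apply hcoinf
    rw [h]
    unfold SF
    rw [Set.image_empty]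
    exact Set.finite_empty
  obtain ⟨x0, t0, ht0, hx0⟩ : ∃ x, ∃ t ∈ T0, ¬ (x ∈ X ↔ x * t ∈ X) := by
    by_contra h
    push Not at h
    exact hq (all_of_edge hT0 (fun x t ht => by
      have h1 := h x t ht
      tauto) hp)
  -- invariance leads to a contradiction
  have fin : (∀ x, n * x ∈ X ↔ x ∈ X) → False := by
    intro h
    have h1 := (hbd x0 t0 ht0 hx0).1
    have h2 : ¬ (n * x0 ∈ X ↔ n * x0 * t0 ∈ X) := by
      rw [h, mul_assoc, h]
      exact hx0
    exact hcon x0 h1 (hbd _ t0 ht0 h2).1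
  -- edges of translates
  have hbd' : ∀ x, ∀ t ∈ T0, ¬ (n * x ∈ X ↔ n * (x * t) ∈ X) → n * x ∈ E ∧ n * (x * t) ∈ E := by
    intro x t ht h
    rw [← mul_assoc] at h ⊢
    exact hbd _ t ht h
  have hEE : ∀ x, ∀ t ∈ T0, ∀ (a b : Prop), (∀ x ∈ E, (n * x ∈ X ↔ a)) →
      (∀ x, n * x ∈ E → (x ∈ X ↔ b)) →
      ((x ∈ X ↔ x * t ∈ X) ∨ ((n * x ∈ X ↔ a) ∧ (n * (x * t) ∈ X ↔ a))) ∧
      ((n * x ∈ X ↔ n * (x * t) ∈ X) ∨ ((x ∈ X ↔ b) ∧ (x * t ∈ X ↔ b))) := by
    intro x t ht a b ha hb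
    constructor
    · by_cases h : (x ∈ X ↔ x * t ∈ X)
      · exact Or.inl h
      · have h1 := hbd x t ht h
        exact Or.inr ⟨ha _ h1.1, ha _ h1.2⟩
    · by_cases h : (n * x ∈ X ↔ n * (x * t) ∈ X)
      · exact Or.inl h
      · have h1 := hbd' x t ht h
        exact Or.inr ⟨hb _ h1.1, hb _ h1.2⟩
  have hn1 : (n * 1 ∈ X ↔ n ∈ X) := by rw [mul_one]
  by_cases hnX : n ∈ X <;> by_cases hnX' : n⁻¹ ∈ X
  · -- the complements are disjoint
    have hZ : ∀ x, x ∈ X ∨ n * x ∈ X := by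
      by_contra h
      push Not at h
      obtain ⟨x, hx1, hx2⟩ := h
      have h3 : (1 : G) ∈ {x | x ∉ X ∧ n * x ∉ X} := by
        refine all_of_edge hT0 (x := x) (fun y t ht => ?_) ⟨hx1, hx2⟩
        have h4 := hEE y t ht (n ∈ X) (n⁻¹ ∈ X) s1 s2
        change (y ∉ X ∧ n * y ∉ X) ↔ (y * t ∉ X ∧ n * (y * t) ∉ X)
        tauto
      apply h3.2
      rw [mul_one]
      exact hnX
    apply hcoinf
    refine hp2.mono fun x hx => ⟨hx, (hZ x).resolve_left hx⟩
  · -- `X` is contained in the translate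
    have hZ : ∀ x, x ∈ X → n * x ∈ X := by
      by_contra h
      push Not at h
      obtain ⟨x, hx1, hx2⟩ := h
      have h3 : (1 : G) ∈ {x | x ∈ X ∧ n * x ∉ X} := by
        refine all_of_edge hT0 (x := x) (fun y t ht => ?_) ⟨hx1, hx2⟩
        have h4 := hEE y t ht (n ∈ X) (n⁻¹ ∈ X) s1 s2
        change (y ∈ X ∧ n * y ∉ X) ↔ (y * t ∈ X ∧ n * (y * t) ∉ X)
        tauto
      apply h3.2
      rw [mul_one]
      exact hnX
    have hZn : ∀ (j : ℕ) x, x ∈ X → n ^ j * x ∈ X := by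
      intro j
      induction j with
      | zero => intro x hx; rwa [pow_zero, one_mul]
      | succ j ih =>
        intro x hx
        rw [pow_succ', mul_assoc]
        exact hZ _ (ih x hx)
    refine fin fun x => ⟨fun hx => ?_, hZ x⟩
    have h4 := hZn (i - 1) _ hx
    rw [← mul_assoc, ← pow_succ, Nat.sub_add_cancel hi] at h4
    exact (hleft _ hni x).1 h4
  · have hZ : ∀ x, n * x ∈ X → x ∈ X := by
      by_contra h
      push Not at h
      obtain ⟨x, hx1, hx2⟩ := h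
      have h3 : (1 : G) ∈ {x | n * x ∈ X ∧ x ∉ X} := by
        refine all_of_edge hT0 (x := x) (fun y t ht => ?_) ⟨hx1, hx2⟩
        have h4 := hEE y t ht (n ∈ X) (n⁻¹ ∈ X) s1 s2
        change (n * y ∈ X ∧ y ∉ X) ↔ (n * (y * t) ∈ X ∧ y * t ∉ X)
        tauto
      apply hnX
      have h5 := h3.1
      rwa [mul_one] at h5
    have hZn : ∀ (j : ℕ) x, n ^ j * x ∈ X → x ∈ X := by
      intro j
      induction j with
      | zero => intro x hx; rwa [pow_zero, one_mul] at hx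
      | succ j ih =>
        intro x hx
        rw [pow_succ', mul_assoc] at hx
        exact ih x (hZ _ hx)
    refine fin fun x => ⟨hZ x, fun hx => ?_⟩
    refine hZn (i - 1) _ ?_
    rw [← mul_assoc, ← pow_succ, Nat.sub_add_cancel hi]
    exact (hleft _ hni x).2 hx
  · have hZ : ∀ x, ¬ (x ∈ X ∧ n * x ∈ X) := by
      intro x hx
      have h3 : (1 : G) ∈ {x | x ∈ X ∧ n * x ∈ X} := by
        refine all_of_edge hT0 (x := x) (fun y t ht => ?_) hx
        have h4 := hEE y t ht (n ∈ X) (n⁻¹ ∈ X) s1 s2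
        change (y ∈ X ∧ n * y ∈ X) ↔ (y * t ∈ X ∧ n * (y * t) ∈ X)
        tauto
      apply hnX
      have h5 := h3.2
      rwa [mul_one] at h5
    apply hinf
    refine hp1.mono fun x hx => ⟨hx, fun h => hZ x ⟨hx, h⟩⟩

end

end Pool.Agent.H26.PD.PZ
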