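import Pool.Agent.H26.PX.Main
import Pool.Agent.H26.PD.Semi

/-!
`PD_2`-groups which are Baumslag–Solitar groups.
-/

set_option autoImplicit false
set_option linter.unusedSectionVars false

namespace Pool.Agent.H26.PD.PZ

open Pool.Agent.Helper158 Pool.Agent.Helper386.PD3 Pool.Agent.H26.PD.PN Pool.Agent.H26.PD.PK
  Pool.Agent.H26.PD.PS Pool.Agent.H26.PD.PT
open scoped Classical Matrix

noncomputable section

variable {S : Type} [Group S]

theorem coeff_mul_gof (r : RR S) (g s : S) : (r * gof g).coeff s = r.coeff (s * g⁻¹) := by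
  change (r * MonoidAlgebra.single g (1 : ℤ)).coeff s = _
  rw [MonoidAlgebra.coeff_mul_single_apply, mul_one]

theorem eq_zero_of_mul {g : S} (hg : ∀ k : ℤ, k ≠ 0 → g ^ k ≠ 1) {r : RR S}
    (h : r * (gof g - 1) = 0) : r = 0 := by
  by_contra hne
  have h0 : r * gof g = r := by rwa [mul_sub, mul_one, sub_eq_zero] at h
  have h1 : ∀ s, r.coeff (s * g⁻¹) = r.coeff s := by
    intro s
    rw [← coeff_mul_gof, h0]
  obtain ⟨s, hs⟩ : ∃ s, r.coeff s ≠ 0 := by
    by_contra h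
    push Not at h
    exact hne (MonoidAlgebra.coeff_injective (Finsupp.ext h))
  have h2 : ∀ n : ℕ, r.coeff (s * (g⁻¹) ^ n) ≠ 0 := by
    intro n
    induction n with
    | zero => rwa [pow_zero, mul_one]
    | succ n ih =>
      rw [pow_succ, ← mul_assoc, h1]
      exact ih
  have h3 : (Set.univ : Set ℕ).Finite := by
    refine Set.Finite.of_finite_image (f := fun n : ℕ => s * (g⁻¹) ^ n)
      (r.coeff.support.finite_toSet.subset ?_) ?_
    · rintro _ ⟨n, -, rfl⟩
      exact Finset.mem_coe.2 (Finsupp.mem_support_iff.2 (h2 n))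
    · intro a _ b _ hab
      have h4 : (g⁻¹) ^ a = (g⁻¹) ^ b := mul_left_cancel hab
      by_contra hne'
      apply hg ((a : ℤ) - b) (by omega)
      rw [zpow_sub, zpow_natCast, zpow_natCast]
      rw [inv_pow, inv_pow, inv_inj] at h4
      rw [h4, mul_inv_cancel]
  exact Set.infinite_univ h3

theorem exists_N (c : S) (k : ℤ) : ∃ N : RR S, N * (gof c - 1) = gof (c ^ k) - 1 ∧
    ∀ (R : Type) (_ : Ring R) (σ : RR S →+* R), σ (gof c) = 1 → σ N = k := by
  have hzp : ∀ (R : Type) (_ : Ring R) (σ : RR S →+* R), σ (gof c) = 1 → ∀ j : ℤ,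
      σ (gof (c ^ j)) = 1 := by
    intro R _ σ h j
    have h1 : ∀ g g' : S, σ (gof g) = 1 → σ (gof g') = 1 → σ (gof (g * g')) = 1 := by
      intro g g' h2 h3
      rw [gof_mul, map_mul, h2, h3, one_mul]
    have h2 : ∀ g : S, σ (gof g) = 1 → σ (gof g⁻¹) = 1 := by
      intro g h3
      have h4 : σ (gof (g⁻¹ * g)) = 1 := by rw [inv_mul_cancel, gof_one, map_one]
      rw [gof_mul, map_mul, h3, mul_one] at h4
      exact h4
    induction j using Int.induction_on with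
    | zero => rw [zpow_zero, gof_one, map_one]
    | succ j ih =>
      rw [zpow_add_one]
      exact h1 _ _ ih h
    | pred j ih =>
      rw [zpow_sub_one]
      exact h1 _ _ ih (h2 _ h)
  induction k using Int.induction_on with
  | zero =>
    refine ⟨0, by rw [zero_mul, zpow_zero, gof_one, sub_self], fun R _ σ _ => ?_⟩
    rw [map_zero, Int.cast_zero]
  | succ k ih =>
    obtain ⟨N, hN, hσ⟩ := ih
    refine ⟨N + gof (c ^ (k : ℤ)), ?_, fun R _ σ h => ?_⟩
    · rw [add_mul, hN, mul_sub, mul_one, ← gof_mul, ← zpow_add_one]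
      abel
    · rw [map_add, hσ R _ σ h, hzp R _ σ h, Int.cast_add, Int.cast_one]
  | pred k ih =>
    obtain ⟨N, hN, hσ⟩ := ih
    refine ⟨N - gof (c ^ (-(k : ℤ) - 1)), ?_, fun R _ σ h => ?_⟩
    · rw [sub_mul, hN, mul_sub, mul_one, ← gof_mul, ← zpow_add_one, sub_add_cancel]
      abel
    · rw [map_sub, hσ R _ σ h, hzp R _ σ h, Int.cast_sub, Int.cast_one]

theorem LI_zpowers {c : S} {y : RR S} (hy : y ∈ LI (Subgroup.zpowers c)) :
    ∃ z, y = z * (gof c - 1) := by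
  unfold LI at hy
  induction hy using Submodule.span_induction with
  | mem x hx =>
    obtain ⟨b, ⟨k, rfl⟩, rfl⟩ := hx
    obtain ⟨N, hN, -⟩ := exists_N c k
    exact ⟨N, hN.symm⟩
  | zero => exact ⟨0, (zero_mul _).symm⟩
  | add x y _ _ hx hy =>
    obtain ⟨z, rfl⟩ := hx
    obtain ⟨z', rfl⟩ := hy
    exact ⟨z + z', (add_mul _ _ _).symm⟩
  | smul r x _ hx =>
    obtain ⟨z, rfl⟩ := hx
    exact ⟨r * z, by rw [smul_eq_mul, mul_assoc]⟩

/-- the second cohomology of a `PD_2`-group -/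
theorem pd2_functional (hPD : PD2 S) {m : ℕ} (h : Fin m → S)
    (hgen : Subgroup.closure (Set.range h) = ⊤)
    (h2 : Module.Projective (RR S) (LinearMap.ker (bd h))) :
    ∃ l : (LinearMap.ker (bd h) →ₗ[RR S] RR S) →+ ℤ, Function.Surjective l ∧
      ∀ φ, l φ = 0 ↔ ∃ c : Fin m → RR S, ∀ x : LinearMap.ker (bd h), φ x = ∑ b, x.1 b * c b := by
  obtain ⟨-, -, ⟨e⟩⟩ := hPD
  have hR := reso_PF h hgen
  have hproj : ∀ i, Module.Projective (MonoidAlgebra ℤ S) (PF h i) := by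
    intro i
    match i with
    | 0 => exact inferInstanceAs (Module.Projective (RR S) (RR S))
    | 1 => exact inferInstanceAs (Module.Projective (RR S) (Fin m → RR S))
    | 2 => exact h2
    | _ + 3 => exact inferInstanceAs (Module.Projective (RR S) PUnit)
  obtain ⟨π, hπ1, hπ2⟩ := hR.coh 2
  have hmem : ∀ φ : LinearMap.ker (bd h) →ₗ[RR S] RR S,
      (φ : PF h 2 →ₗ[MonoidAlgebra ℤ S] MonoidAlgebra ℤ S) ∈ cocyc (dF h) 2 := by
    intro φ
    refine LinearMap.ext fun x => ?_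
    have hs : Subsingleton (PF h 3) := inferInstanceAs (Subsingleton PUnit)
    rw [Subsingleton.elim x 0, map_zero, map_zero]
  refine ⟨AddMonoidHom.mk' (fun φ => e (π ⟨φ, hmem φ⟩)) ?_, ?_, ?_⟩
  · intro φ ψ
    rw [← map_add, ← map_add]
    rfl
  · intro k
    obtain ⟨⟨φ, hφ⟩, h3⟩ := hπ1 (e.symm k)
    refine ⟨φ, ?_⟩
    change e (π ⟨φ, hφ⟩) = k
    rw [h3, e.apply_symm_apply]
  · intro φ
    change e (π ⟨φ, hmem φ⟩) = 0 ↔ _
    rw [AddEquiv.map_eq_zero_iff, hπ2]
    constructor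
    · rintro ⟨g, hg⟩
      obtain ⟨g', hgg⟩ : ∃ g' : (Fin m → RR S) →ₗ[RR S] RR S, g' = g := ⟨g, rfl⟩
      refine ⟨fun b => g' (Pi.single b 1), fun x => ?_⟩
      have h3 : φ x = g' x.1 := by
        rw [hgg]
        exact (LinearMap.congr_fun hg x).symm
      refine h3.trans ?_
      conv_lhs => rw [eq_lm g', lm_apply]
    · rintro ⟨c, hc⟩
      refine ⟨lm c, ?_⟩
      refine LinearMap.ext fun x => ?_
      exact (hc x).symm

/-- a `PD_2`-group has a nontrivial second syzygy -/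
theorem pd2_not_free (hPD : PD2 S) {m : ℕ} (h : Fin m → S)
    (hgen : Subgroup.closure (Set.range h) = ⊤) : ∃ x, bd h x = 0 ∧ x ≠ 0 := by
  by_contra hcon
  push Not at hcon
  have hs : Subsingleton (LinearMap.ker (bd h)) := by
    refine ⟨fun a b => Subtype.ext ?_⟩
    rw [hcon a.1 a.2, hcon b.1 b.2]
  have hp : Module.Projective (RR S) (LinearMap.ker (bd h)) := inferInstance
  obtain ⟨l, hl, -⟩ := pd2_functional hPD h hgen hp
  obtain ⟨φ, hφ⟩ := hl 1
  have h0 : φ = 0 := LinearMap.ext fun x => by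
    rw [Subsingleton.elim x 0, map_zero, map_zero]
  rw [h0, map_zero] at hφ
  exact zero_ne_one hφ

theorem pd2_not_cyclic (hPD : PD2 S) (htf : ∀ g : S, g ≠ 1 → ∀ k : ℤ, k ≠ 0 → g ^ k ≠ 1) (g : S)
    (hg : ∀ x : S, ∃ k : ℤ, x = g ^ k) : False := by
  by_cases hg1 : g = 1
  · obtain ⟨x, -, hx⟩ := pd2_not_free hPD (m := 0) (fun i => i.elim0) (by
      rw [eq_top_iff]
      intro x _
      obtain ⟨k, rfl⟩ := hg x
      rw [hg1, one_zpow]
      exact one_mem _)
    exact hx (funext fun i => i.elim0)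
  · obtain ⟨x, hx0, hx⟩ := pd2_not_free hPD (m := 1) (fun _ => g) (by
      rw [eq_top_iff]
      intro x _
      obtain ⟨k, rfl⟩ := hg x
      exact zpow_mem (Subgroup.subset_closure (Set.mem_range_self (0 : Fin 1))) k)
    apply hx
    funext i
    rw [bd_apply, Fin.sum_univ_one] at hx0
    rw [Subsingleton.elim i 0]
    exact eq_zero_of_mul (htf g hg1) hx0

/-- the second syzygy of a Baumslag–Solitar group is free of rank one -/
theorem exists_syz (htf : ∀ g : S, g ≠ 1 → ∀ k : ℤ, k ≠ 0 → g ^ k ≠ 1) (t g : S)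
    (k : ℤ) (hg : g ≠ 1) (hk : k ≠ 0) (hrel : t * g * t⁻¹ = g ^ k)
    (hacy : Acy t (Subgroup.zpowers g)) :
    ∃ (N : RR S) (κ : LinearMap.ker (bd (![t, g] : Fin 2 → S)))
      (E : RR S ≃ₗ[RR S] LinearMap.ker (bd (![t, g] : Fin 2 → S))),
      N * (gof g - 1) = gof (g ^ k) - 1 ∧
      (∀ (R : Type) (_ : Ring R) (σ : RR S →+* R), σ (gof g) = 1 → σ N = k) ∧
      κ.1 0 = 1 - gof (g ^ k) ∧ κ.1 1 = gof t - N ∧ ∀ z, E z = z • κ := by
  obtain ⟨N, hN, hNσ⟩ := exists_N g k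
  let h : Fin 2 → S := ![t, g]
  have htg : t * g = g ^ k * t := by rw [← hrel]; group
  have htgR : gof t * gof g = gof (g ^ k) * gof t := by rw [← gof_mul, htg, gof_mul]
  let κ0 : Fin 2 → RR S := ![1 - gof (g ^ k), gof t - N]
  have hκ0 : bd h κ0 = 0 := by
    rw [bd_apply, Fin.sum_univ_two]
    change (1 - gof (g ^ k)) * (gof t - 1) + (gof t - N) * (gof g - 1) = 0
    rw [sub_mul (gof t) N, hN, mul_sub (gof t), htgR, sub_mul, mul_sub, mul_sub]
    simp only [one_mul, mul_one]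
    abel
  let κ : LinearMap.ker (bd h) := ⟨κ0, hκ0⟩
  have hgk : g ^ k ≠ 1 := htf g hg k hk
  have hspan : ∀ x : LinearMap.ker (bd h), ∃ z : RR S, z • κ = x := by
    intro x
    have hx : x.1 0 * (gof t - 1) + x.1 1 * (gof g - 1) = 0 := by
      have h1 := LinearMap.mem_ker.1 x.2
      rw [bd_apply, Fin.sum_univ_two] at h1
      exact h1
    have h1 : x.1 0 * (gof t - 1) ∈ LI (Subgroup.zpowers g) := by
      rw [eq_neg_of_add_eq_zero_left hx]
      exact neg_mem (LI_mem (Subgroup.mem_zpowers g) _)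
    have h2 := hacy _ h1
    have h3 : AA t (Subgroup.zpowers g) ≤ Subgroup.zpowers (g ^ k) := by
      intro y hy
      rw [mem_AA] at hy
      obtain ⟨j, hj⟩ := hy.2
      refine ⟨j, ?_⟩
      have h4 : y = t * g ^ j * t⁻¹ := by
        change g ^ j = t⁻¹ * y * t at hj
        rw [hj]
        group
      change (g ^ k) ^ j = y
      rw [h4, ← hrel]
      exact conj_zpow
    obtain ⟨z, hz⟩ := LI_zpowers (LI_mono h3 h2)
    refine ⟨-z, Subtype.ext (funext fun i => ?_)⟩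
    have h0 : (-z • κ).1 0 = x.1 0 := by
      change -z * (1 - gof (g ^ k)) = x.1 0
      rw [hz]
      noncomm_ring
    fin_cases i
    · exact h0
    · have h5 : (-z • κ).1 1 - x.1 1 = 0 := by
        refine eq_zero_of_mul (htf g hg) ?_
        have h6 := LinearMap.mem_ker.1 (-z • κ).2
        rw [bd_apply, Fin.sum_univ_two] at h6
        have h7 : (-z • κ).1 0 * (gof t - 1) + (-z • κ).1 1 * (gof g - 1) = 0 := h6
        rw [h0] at h7
        rw [sub_mul, sub_eq_zero]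
        have h8 := h7.trans hx.symm
        exact add_left_cancel h8
      exact sub_eq_zero.1 h5
  have huniq : ∀ z : RR S, z • κ = 0 → z = 0 := by
    intro z hz
    have h1 : z * (1 - gof (g ^ k)) = 0 := congrArg (fun x : LinearMap.ker (bd h) => x.1 0) hz
    refine eq_zero_of_mul (htf _ hgk) ?_
    have h2 : z * (gof (g ^ k) - 1) = -(z * (1 - gof (g ^ k))) := by noncomm_ring
    rw [h2, h1, neg_zero]
  let E : RR S ≃ₗ[RR S] LinearMap.ker (bd h) := LinearEquiv.ofBijective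
    (LinearMap.toSpanSingleton (RR S) _ κ) ⟨by
      rw [injective_iff_map_eq_zero]
      exact huniq, hspan⟩
  have hE : ∀ z, E z = z • κ := fun _ => rfl
  exact ⟨N, κ, E, hN, hNσ, rfl, rfl, hE⟩

theorem gen_two {t g : S} (hgen : Subgroup.closure {t, g} = ⊤) :
    Subgroup.closure (Set.range (![t, g] : Fin 2 → S)) = ⊤ := by
  rw [eq_top_iff, ← hgen, Subgroup.closure_le]
  rintro x (rfl | rfl)
  · exact Subgroup.subset_closure (Set.mem_range_self (0 : Fin 2))
  · exact Subgroup.subset_closure (Set.mem_range_self (1 : Fin 2))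

/-- a `PD_2`-group which is an ascending HNN extension of an infinite cyclic group -/
theorem pd2_bs (hPD : PD2 S) (htf : ∀ g : S, g ≠ 1 → ∀ k : ℤ, k ≠ 0 → g ^ k ≠ 1) (t g : S)
    (k : ℤ) (hg : g ≠ 1) (hk : k ≠ 0) (hrel : t * g * t⁻¹ = g ^ k)
    (hgen : Subgroup.closure {t, g} = ⊤) (hacy : Acy t (Subgroup.zpowers g)) :
    k = 1 ∨ k = -1 := by
  obtain ⟨N, κ, E, hN, hNσ, hκ00, hκ01, hE⟩ := exists_syz htf t g k hg hk hrel hacy
  let h : Fin 2 → S := ![t, g]
  have hgen' : Subgroup.closure (Set.range h) = ⊤ := gen_two hgen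
  let κ0 : Fin 2 → RR S := κ.1
  have hproj : Module.Projective (RR S) (LinearMap.ker (bd h)) := Module.Projective.of_equiv E
  obtain ⟨l, hl, hl0⟩ := pd2_functional hPD h hgen' hproj
  let φ : RR S → (LinearMap.ker (bd h) →ₗ[RR S] RR S) := fun r =>
    (LinearMap.toSpanSingleton (RR S) (RR S) r).comp E.symm.toLinearMap
  have hφ : ∀ r x, φ r x = E.symm x * r := fun _ _ => rfl
  let Λ : RR S →+ ℤ := AddMonoidHom.mk' (fun r => l (φ r)) (fun a b => by
    rw [← map_add]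
    congr 1
    refine LinearMap.ext fun x => ?_
    rw [LinearMap.add_apply, hφ, hφ, hφ, mul_add])
  have hΛ : ∀ r, Λ r = l (φ r) := fun _ => rfl
  have hΛs : Function.Surjective Λ := by
    intro j
    obtain ⟨ψ, hψ⟩ := hl j
    refine ⟨ψ κ, ?_⟩
    rw [hΛ, ← hψ]
    congr 1
    refine LinearMap.ext fun x => ?_
    rw [hφ]
    conv_rhs => rw [← E.apply_symm_apply x, hE, map_smul, smul_eq_mul]
  have hΛ0 : ∀ r, Λ r = 0 ↔ ∃ c : Fin 2 → RR S, r = κ0 0 * c 0 + κ0 1 * c 1 := by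
    intro r
    rw [hΛ, hl0]
    constructor
    · rintro ⟨c, hc⟩
      refine ⟨c, ?_⟩
      have h1 := hc κ
      rw [hφ, Fin.sum_univ_two] at h1
      have h2 : E.symm κ = 1 := by
        rw [LinearEquiv.symm_apply_eq, hE, one_smul]
      rw [h2, one_mul] at h1
      exact h1
    · rintro ⟨c, hc⟩
      refine ⟨c, fun x => ?_⟩
      rw [hφ, Fin.sum_univ_two, hc, mul_add, ← mul_assoc, ← mul_assoc]
      have h2 : x = E.symm x • κ := by
        rw [← hE, E.apply_symm_apply]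
      have h3 : ∀ i, x.1 i = E.symm x * κ0 i := fun i =>
        congrArg (fun y : LinearMap.ker (bd h) => y.1 i) h2
      rw [h3, h3]
  have hΛm : ∀ r u, Λ r = 0 → Λ (r * u) = 0 := by
    intro r u hr
    obtain ⟨c, hc⟩ := (hΛ0 r).1 hr
    refine (hΛ0 _).2 ⟨fun i => c i * u, ?_⟩
    rw [hc, add_mul, mul_assoc, mul_assoc]
  obtain ⟨r0, hr0⟩ := hΛs 1
  let s : S → ℤ := fun u => Λ (r0 * gof u)
  have hs : ∀ r u, Λ (r * gof u) = Λ r * s u := by
    intro r u
    have h1 : Λ (r - Λ r • r0) = 0 := by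
      rw [map_sub, map_zsmul, hr0, smul_eq_mul, mul_one, sub_self]
    have h2 := hΛm _ (gof u) h1
    rw [sub_mul, map_sub, smul_mul_assoc, map_zsmul, sub_eq_zero, smul_eq_mul] at h2
    exact h2
  have hs1 : s 1 = 1 := by
    change Λ (r0 * gof 1) = 1
    rw [gof_one, mul_one, hr0]
  have hsm : ∀ u v, s (u * v) = s u * s v := by
    intro u v
    change Λ (r0 * gof (u * v)) = _
    rw [gof_mul, ← mul_assoc, hs]
  let s' : S →* ℤ := { toFun := s, map_one' := hs1, map_mul' := hsm }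
  let σ : S →* ℤˣ := s'.toHomUnits
  have hσ : ∀ u, ((σ u : ℤˣ) : ℤ) = s u := fun _ => rfl
  have hew : ∀ r, Λ r = Λ 1 * ew σ r := by
    intro r
    induction r using rr_ind with
    | h1 u => rw [ew_of, hσ, ← hs, one_mul]
    | h2 a b ha hb => rw [map_add, map_add, ha, hb, mul_add]
    | h3 a ha => rw [map_neg, map_neg, ha, mul_neg]
  have hΛ1 : Λ 1 ≠ 0 := by
    intro h1
    obtain ⟨r, hr⟩ := hΛs 1
    rw [hew, h1, zero_mul] at hr
    exact zero_ne_one hr
  have e1 : ew σ (1 - gof (g ^ k)) = 0 := by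
    have h1 : Λ (1 - gof (g ^ k)) = 0 := (hΛ0 _).2 ⟨![1, 0], by
      change _ = κ.1 0 * 1 + κ.1 1 * 0
      rw [mul_one, mul_zero, add_zero, hκ00]⟩
    rw [hew] at h1
    exact (mul_eq_zero.1 h1).resolve_left hΛ1
  have e2 : ew σ (gof t - N) = 0 := by
    have h1 : Λ (gof t - N) = 0 := (hΛ0 _).2 ⟨![0, 1], by
      change _ = κ.1 0 * 0 + κ.1 1 * 1
      rw [mul_one, mul_zero, zero_add, hκ01]⟩
    rw [hew] at h1
    exact (mul_eq_zero.1 h1).resolve_left hΛ1
  rw [map_sub, map_one, ew_of, map_zpow, sub_eq_zero] at e1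
  rw [map_sub, ew_of, sub_eq_zero] at e2
  rcases Int.units_eq_one_or (σ g) with h1 | h1
  · have h1' : ew σ (gof g) = 1 := by rw [ew_of, h1]; rfl
    rw [hNσ ℤ _ (ew σ) h1', Int.cast_id] at e2
    rcases Int.units_eq_one_or (σ t) with h3 | h3
    · left
      rw [← e2, h3]
      rfl
    · right
      rw [← e2, h3]
      rfl
  · exfalso
    have h3 := congrArg (ew σ) hN
    rw [map_mul, map_sub, map_sub, ew_of, map_one, ew_of, map_zpow, ← e1, h1, sub_self] at h3
    have h4 : ew σ N = 0 := by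
      rcases mul_eq_zero.1 h3 with h5 | h5
      · exact h5
      · exact absurd h5 (by decide)
    rw [h4] at e2
    exact (σ t).ne_zero e2

/-- Baumslag–Solitar groups are not of cohomological dimension one -/
theorem bs_not_triv (htf : ∀ g : S, g ≠ 1 → ∀ k : ℤ, k ≠ 0 → g ^ k ≠ 1) (t g : S)
    (χ : S →* Multiplicative ℤ) (ht : χ t = Multiplicative.ofAdd 1) (hgχ : χ g = 1)
    (k : ℤ) (hg : g ≠ 1) (hk : k ≠ 0) (hrel : t * g * t⁻¹ = g ^ k)
    (hacy : Acy t (Subgroup.zpowers g)) : ¬ Triv (![t, g] : Fin 2 → S) := by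
  obtain ⟨N, κ, E, hN, hNσ, hκ00, hκ01, hE⟩ := exists_syz htf t g k hg hk hrel hacy
  intro hT
  obtain ⟨c, hc⟩ := hT E.symm.toLinearMap
  have h1 := hc κ
  have h2 : E.symm κ = 1 := by
    rw [LinearEquiv.symm_apply_eq, hE, one_smul]
  rw [Fin.sum_univ_two, hκ00, hκ01] at h1
  have h3 : (1 : RR S) = (1 - gof (g ^ k)) * c 0 + (gof t - N) * c 1 := by
    rw [← h1, ← h2]
    rfl
  -- the representation
  have hk' : (k : ℚ) ≠ 0 := Int.cast_ne_zero.2 hk
  let u : ℚˣ := Units.mk0 (k : ℚ) hk'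
  let θ : S →* ℚˣ := (zpowersHom ℚˣ u).comp χ
  let ρ : RR S →+* ℚ := (MonoidAlgebra.lift ℤ ℚ S ((Units.coeHom ℚ).comp θ)).toRingHom
  have hρ : ∀ x : S, ρ (gof x) = ((θ x : ℚˣ) : ℚ) := by
    intro x
    change MonoidAlgebra.lift ℤ ℚ S ((Units.coeHom ℚ).comp θ) (MonoidAlgebra.of ℤ S x) = _
    rw [MonoidAlgebra.lift_of]
    rfl
  have hρg : ρ (gof g) = 1 := by
    rw [hρ]
    change ((zpowersHom ℚˣ u (χ g) : ℚˣ) : ℚ) = 1
    rw [hgχ, map_one, Units.val_one]
  have hρgk : ρ (gof (g ^ k)) = 1 := by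
    rw [hρ]
    change ((zpowersHom ℚˣ u (χ (g ^ k)) : ℚˣ) : ℚ) = 1
    rw [map_zpow, hgχ, one_zpow, map_one, Units.val_one]
  have hρt : ρ (gof t) = k := by
    rw [hρ]
    change ((zpowersHom ℚˣ u (χ t) : ℚˣ) : ℚ) = k
    rw [ht, zpowersHom_apply]
    change ((u ^ (1 : ℤ) : ℚˣ) : ℚ) = k
    rw [zpow_one]
    rfl
  have h4 := congrArg ρ h3
  rw [map_add, map_mul, map_mul, map_sub, map_sub, map_one, hρgk, hρt, hNσ ℚ _ ρ hρg, sub_self,
    sub_self, zero_mul, zero_mul, add_zero] at h4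
  exact one_ne_zero h4

end

end Pool.Agent.H26.PD.PZ
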