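import Pool.Agent.H26.PZ.Pd2

/-!
Structure of finitely generated groups without free subgroups.
-/

set_option autoImplicit false
set_option linter.unusedSectionVars false

namespace Pool.Agent.H26.PD.PZ

open Pool.Agent.Helper158 Pool.Agent.Helper386.PD3 Pool.Agent.H26.PD.PN Pool.Agent.H26.PD.PK
  Pool.Agent.H26.PD.PS Pool.Agent.H26.PD.PT
open scoped Classical Matrix

noncomputable section

variable {S : Type} [Group S]

/-- the data of a Baumslag–Solitar group -/
structure BSD (χ : S →* Multiplicative ℤ) (t g : S) (k : ℤ) : Prop where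
  ht : χ t = Multiplicative.ofAdd 1
  hg : χ g = 1
  hne : g ≠ 1
  hk : k ≠ 0
  hrel : t * g * t⁻¹ = g ^ k
  hgen : Subgroup.closure {t, g} = ⊤
  hacy : Acy t (Subgroup.zpowers g)
  hloc : ∀ x, χ x = 1 → ∃ (j : ℕ) (l : ℤ), t ^ j * x * (t ^ j)⁻¹ = g ^ l

/-- cyclic groups -/
def Cyc (S : Type) [Group S] : Prop := ∃ g : S, ∀ x, ∃ k : ℤ, x = g ^ k

theorem struct_aux (χ : S →* Multiplicative ℤ) (t : S) (ht : χ t = Multiplicative.ofAdd 1)
    (B : Subgroup S) (hB : ∀ x ∈ B, t * x * t⁻¹ ∈ B) (hBχ : B ≤ χ.ker)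
    (hgen : Subgroup.closure (insert t (B : Set S)) = ⊤) (hacy : Acy t B)
    (h2 : ∀ g, χ g = 1 → ∃ k : ℕ, t ^ k * g * (t ^ k)⁻¹ ∈ B) (g : B)
    (hg : ∀ x : B, ∃ k : ℤ, x = g ^ k) :
    Cyc S ∨ ∃ (χ : S →* Multiplicative ℤ) (t g : S) (k : ℤ), BSD χ t g k := by
  by_cases hg1 : g = 1
  · left
    refine ⟨t, fun x => ?_⟩
    have h3 : x ∈ Subgroup.closure (insert t (B : Set S)) := by rw [hgen]; trivial
    have h4 : Subgroup.closure (insert t (B : Set S)) ≤ Subgroup.zpowers t := by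
      rw [Subgroup.closure_le]
      rintro y (rfl | hy)
      · exact Subgroup.mem_zpowers _
      · obtain ⟨k, hk⟩ := hg ⟨y, hy⟩
        rw [hg1, one_zpow] at hk
        rw [show y = 1 from congrArg Subtype.val hk]
        exact one_mem _
    obtain ⟨k, hk⟩ := h4 h3
    exact ⟨k, hk.symm⟩
  · right
    have hBz : B = Subgroup.zpowers (g : S) := by
      apply le_antisymm
      · intro y hy
        obtain ⟨k, hk⟩ := hg ⟨y, hy⟩
        exact ⟨k, (congrArg Subtype.val hk).symm⟩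
      · rw [Subgroup.zpowers_le]
        exact g.2
    have hgne : (g : S) ≠ 1 := fun h => hg1 (Subtype.ext h)
    obtain ⟨k, hk⟩ := hg ⟨_, hB g.1 g.2⟩
    have hk' : t * (g : S) * t⁻¹ = (g : S) ^ k := congrArg Subtype.val hk
    have hk0 : k ≠ 0 := by
      intro h0
      rw [h0, zpow_zero] at hk'
      apply hgne
      have h3 : (g : S) = t⁻¹ * (t * (g : S) * t⁻¹) * t := by group
      rw [h3, hk']
      group
    have hgen2 : Subgroup.closure ({t, (g : S)} : Set S) = ⊤ := by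
      refine top_unique (hgen.ge.trans ?_)
      rw [Subgroup.closure_le]
      intro y hy
      rcases hy with hy | hy
      · rw [hy]
        exact Subgroup.subset_closure (Set.mem_insert _ _)
      · have hy' : y ∈ Subgroup.zpowers (g : S) := by
          rw [← hBz]
          exact hy
        obtain ⟨j, hj⟩ := hy'
        rw [← hj]
        change (g : S) ^ j ∈ Subgroup.closure ({t, (g : S)} : Set S)
        refine Subgroup.zpow_mem _ ?_ j
        exact Subgroup.subset_closure (Set.mem_insert_of_mem _ (Set.mem_singleton _))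
    have hacy2 : Acy t (Subgroup.zpowers (g : S)) := by
      rw [← hBz]
      exact hacy
    have hloc2 : ∀ x, χ x = 1 → ∃ (j : ℕ) (l : ℤ), t ^ j * x * (t ^ j)⁻¹ = (g : S) ^ l := by
      intro x hx
      obtain ⟨j, hj⟩ := h2 x hx
      rw [hBz] at hj
      obtain ⟨l, hl⟩ := hj
      exact ⟨j, l, hl.symm⟩
    exact ⟨χ, t, (g : S), k, ht, hBχ g.2, hgne, hk0, hk', hgen2, hacy2, hloc2⟩

/-- **Structure of finitely generated groups without free subgroups.** -/
theorem struct (htf : ∀ g : S, g ≠ 1 → ∀ k : ℤ, k ≠ 0 → g ^ k ≠ 1) (hno : NoF S)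
    (hcoh : ∀ B : Subgroup S, B.FG → FGK B)
    (hproj : ∀ (m : ℕ) (h : Fin m → S), Subgroup.closure (Set.range h) = ⊤ →
      Module.Projective (RR S) (LinearMap.ker (bd h))) (hfg : Group.FG S)
    (hind : (∃ s : S, s ≠ 1) → ∃ χ : S →* Multiplicative ℤ, χ ≠ 1) :
    Cyc S ∨ ∃ (χ : S →* Multiplicative ℤ) (t g : S) (k : ℤ), BSD χ t g k := by
  rcases finite_or_infinite S with hfin | hinf
  · exact Or.inl ⟨1, fun x => ⟨0, by rw [zpow_zero]; exact eq_one_of_finite htf x⟩⟩
  rcases oev_or_cyclic hfg htf hno with hO | ⟨g, hg⟩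
  swap
  · exact Or.inl ⟨g, hg⟩
  obtain ⟨s, hs⟩ := exists_ne (1 : S)
  obtain ⟨χ0, hχ0⟩ := hind ⟨s, hs⟩
  obtain ⟨χ, t, ht⟩ := exists_surj χ0 hχ0
  have hSK : FGK S := (hcoh ⊤ (Group.fg_def.1 hfg)).equiv Subgroup.topEquiv
  rcases bs_fgk hSK χ t ht with ⟨F, hF⟩ | ⟨B, hBfg, hBχ, hacy, hgenB, ⟨hB, h2⟩ | ⟨hB, h2⟩⟩
  · exact absurd ⟨χ.ker.subtype.comp F, χ.ker.subtype_injective.comp hF⟩ hno
  · obtain ⟨g, hg⟩ := base_cyclic htf hno hcoh hproj hO χ t ht B hB hBχ hBfg hgenB hacy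
    exact struct_aux χ t ht B hB hBχ hgenB hacy h2 g hg
  · have hk : χ⁻¹.ker = χ.ker := by
      ext x
      rw [MonoidHom.mem_ker, MonoidHom.mem_ker, MonoidHom.inv_apply, inv_eq_one]
    have ht' : χ⁻¹ t⁻¹ = Multiplicative.ofAdd 1 := by
      rw [MonoidHom.inv_apply, map_inv, inv_inv, ht]
    have hgenB' : Subgroup.closure (insert t⁻¹ (B : Set S)) = ⊤ := by
      rw [eq_top_iff, ← hgenB, Subgroup.closure_le]
      rintro x (rfl | hx)
      · have h3 : x⁻¹ ∈ Subgroup.closure (insert x⁻¹ (B : Set S)) :=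
          Subgroup.subset_closure (Set.mem_insert _ _)
        have h4 := inv_mem h3
        rwa [inv_inv] at h4
      · exact Subgroup.subset_closure (Set.mem_insert_of_mem _ hx)
    have hB' : ∀ x ∈ B, t⁻¹ * x * t⁻¹⁻¹ ∈ B := fun x hx => by
      rw [inv_inv]
      exact hB x hx
    obtain ⟨g, hg⟩ := base_cyclic htf hno hcoh hproj hO χ⁻¹ t⁻¹ ht' B hB' (hk ▸ hBχ) hBfg hgenB'
      hacy.symm
    refine struct_aux χ⁻¹ t⁻¹ ht' B hB' (hk ▸ hBχ) hgenB' hacy.symm (fun g hg => ?_) g hg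
    obtain ⟨k, hk'⟩ := h2 g (by
      rw [MonoidHom.inv_apply, inv_eq_one] at hg
      exact hg)
    refine ⟨k, ?_⟩
    rwa [inv_pow, inv_inv]

/-- a free abelian subgroup of rank two -/
def HasZ2 (S : Type) [Group S] : Prop :=
  ∃ a b : S, a * b = b * a ∧ ∀ p q : ℤ, a ^ p * b ^ q = 1 → p = 0 ∧ q = 0

theorem HasZ2.of_inj {A B : Type} [Group A] [Group B] (h : HasZ2 A) (j : A →* B)
    (hj : Function.Injective j) : HasZ2 B := by
  obtain ⟨a, b, hab, hf⟩ := h
  refine ⟨j a, j b, by rw [← map_mul, hab, map_mul], fun p q h1 => hf p q (hj ?_)⟩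
  rw [map_mul, map_zpow, map_zpow, h1, map_one]

variable {χ : S →* Multiplicative ℤ} {t g : S} {k : ℤ}

theorem BSD.conj (h : BSD χ t g k) (n : ℕ) (l : ℤ) :
    t ^ n * g ^ l * (t ^ n)⁻¹ = g ^ (l * k ^ n) := by
  induction n with
  | zero => simp
  | succ n ih =>
    have h1 : t ^ (n + 1) * g ^ l * (t ^ (n + 1))⁻¹ = t * (t ^ n * g ^ l * (t ^ n)⁻¹) * t⁻¹ := by
      rw [pow_succ']
      group
    rw [h1, ih]
    have h2 : t * g ^ (l * k ^ n) * t⁻¹ = (t * g * t⁻¹) ^ (l * k ^ n) := conj_zpow.symm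
    rw [h2, h.hrel, ← zpow_mul]
    congr 1
    ring

theorem BSD.z2 (h : BSD χ t g k) (htf : ∀ g : S, g ≠ 1 → ∀ k : ℤ, k ≠ 0 → g ^ k ≠ 1)
    (hk : k = 1 ∨ k = -1) : HasZ2 S := by
  refine ⟨g, t ^ 2, ?_, fun p q hpq => ?_⟩
  · have h1 := h.conj 2 1
    have h2 : (1 : ℤ) * k ^ 2 = 1 := by rcases hk with rfl | rfl <;> norm_num
    rw [h2, zpow_one] at h1
    rw [mul_inv_eq_iff_eq_mul] at h1
    exact h1.symm
  · have h1 := congrArg χ hpq
    rw [map_mul, map_zpow, map_zpow, map_pow, h.hg, h.ht, one_zpow, one_mul, map_one χ] at h1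
    have h2 : q = 0 := by
      have h3 : (q : ℤ) * ((2 : ℕ) * 1) = 0 := by
        have h4 := congrArg Multiplicative.toAdd h1
        simpa using h4
      omega
    refine ⟨?_, h2⟩
    rw [h2, zpow_zero, mul_one] at hpq
    by_contra hp
    exact htf g h.hne p hp hpq

theorem BSD.comm (h : BSD χ t g k) (a b : S) (ha : χ a = 1) (hb : χ b = 1) : a * b = b * a := by
  obtain ⟨j, l, hj⟩ := h.hloc a ha
  obtain ⟨j', l', hj'⟩ := h.hloc b hb
  have e1 : t ^ (j + j') * a * (t ^ (j + j'))⁻¹ = g ^ (l * k ^ j') := by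
    have : t ^ (j + j') * a * (t ^ (j + j'))⁻¹ = t ^ j' * (t ^ j * a * (t ^ j)⁻¹) * (t ^ j')⁻¹ := by
      rw [add_comm, pow_add]
      group
    rw [this, hj, h.conj]
  have e2 : t ^ (j + j') * b * (t ^ (j + j'))⁻¹ = g ^ (l' * k ^ j) := by
    have : t ^ (j + j') * b * (t ^ (j + j'))⁻¹ = t ^ j * (t ^ j' * b * (t ^ j')⁻¹) * (t ^ j)⁻¹ := by
      rw [pow_add]
      group
    rw [this, hj', h.conj]
  have e3 : t ^ (j + j') * (a * b) * (t ^ (j + j'))⁻¹ =
      t ^ (j + j') * (b * a) * (t ^ (j + j'))⁻¹ := by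
    have e4 : ∀ x y : S, t ^ (j + j') * (x * y) * (t ^ (j + j'))⁻¹ =
        (t ^ (j + j') * x * (t ^ (j + j'))⁻¹) * (t ^ (j + j') * y * (t ^ (j + j'))⁻¹) := by
      intro x y
      group
    rw [e4, e4, e1, e2]
    exact (Commute.refl g).zpow_zpow _ _
  exact mul_left_cancel (mul_right_cancel e3)

theorem BSD.k_eq (h : BSD χ t g k) (htf : ∀ g : S, g ≠ 1 → ∀ k : ℤ, k ≠ 0 → g ^ k ≠ 1)
    (hZ : HasZ2 S) : k = 1 ∨ k = -1 := by
  obtain ⟨a, b, hab, hfree⟩ := hZ
  -- an element of infinite order which commutes with an element outside of the kernel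
  have key : ∀ c d : S, χ c = 1 → c ≠ 1 → c * d = d * c → χ d ≠ 1 → k = 1 ∨ k = -1 := by
    intro c d hc hc1 hcd hd
    obtain ⟨j, l, hj⟩ := h.hloc c hc
    have hl : l ≠ 0 := by
      rintro rfl
      rw [zpow_zero] at hj
      apply hc1
      have : c = (t ^ j)⁻¹ * (t ^ j * c * (t ^ j)⁻¹) * t ^ j := by group
      rw [this, hj]
      group
    -- positive exponent
    have key2 : ∀ (d : S) (e : ℕ), c * d = d * c → e ≠ 0 → χ d = Multiplicative.ofAdd (e : ℤ) →
        k = 1 ∨ k = -1 := by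
      intro d e hcd he hd
      let d' := t ^ j * d * (t ^ j)⁻¹
      have hd' : d' * g ^ l * d'⁻¹ = g ^ l := by
        rw [← hj]
        have : d' * (t ^ j * c * (t ^ j)⁻¹) * d'⁻¹ = t ^ j * (d * c * d⁻¹) * (t ^ j)⁻¹ := by
          change (t ^ j * d * (t ^ j)⁻¹) * (t ^ j * c * (t ^ j)⁻¹) *
            (t ^ j * d * (t ^ j)⁻¹)⁻¹ = _
          group
        rw [this, ← hcd]
        group
      let a' := (t ^ e)⁻¹ * d'
      have ha' : χ a' = 1 := by
        change χ ((t ^ e)⁻¹ * (t ^ j * d * (t ^ j)⁻¹)) = 1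
        rw [map_mul, map_mul, map_mul, map_inv, map_inv, map_pow, h.ht, hd]
        rw [← ofAdd_nsmul]
        simp
      have hcomm := h.comm a' (g ^ l) ha' (by rw [map_zpow, h.hg, one_zpow])
      have h3 : t ^ e * g ^ l * (t ^ e)⁻¹ = g ^ l := by
        have h4 : d' * g ^ l * d'⁻¹ = t ^ e * (a' * g ^ l * a'⁻¹) * (t ^ e)⁻¹ := by
          have : d' = t ^ e * a' := by
            change d' = t ^ e * ((t ^ e)⁻¹ * d')
            group
          rw [this]
          group
        rw [hd', hcomm, mul_inv_cancel_right] at h4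
        exact h4.symm
      rw [h.conj] at h3
      have h5 : g ^ (l * k ^ e - l) = 1 := by
        rw [zpow_sub, h3, mul_inv_cancel]
      have h6 : l * k ^ e - l = 0 := by
        by_contra hne
        exact htf g h.hne _ hne h5
      have h7 : k ^ e = 1 := by
        have h8 : l * k ^ e = l * 1 := by rw [mul_one]; exact sub_eq_zero.1 h6
        exact mul_left_cancel₀ hl h8
      have h9 : IsUnit k := IsUnit.of_pow_eq_one h7 he
      exact Int.isUnit_iff.1 h9
    obtain ⟨e, he⟩ : ∃ e : ℤ, χ d = Multiplicative.ofAdd e := ⟨(χ d).toAdd, rfl⟩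
    have he0 : e ≠ 0 := by
      rintro rfl
      exact hd he
    rcases le_or_gt 0 e with h3 | h3
    · obtain ⟨n, rfl⟩ := Int.eq_ofNat_of_zero_le h3
      exact key2 d n hcd (by omega) he
    · obtain ⟨n, hn⟩ := Int.eq_ofNat_of_zero_le (a := -e) (by omega)
      refine key2 d⁻¹ n ?_ (by omega) ?_
      · have : c * d⁻¹ = d⁻¹ * (d * c) * d⁻¹ := by group
        rw [this, ← hcd]
        group
      · rw [map_inv, he, ← hn]
        rfl
  have hcommpow : ∀ p q : ℤ, Commute (a ^ p * b ^ q) a ∧ Commute (a ^ p * b ^ q) b := by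
    intro p q
    have hc : Commute a b := hab
    refine ⟨?_, ?_⟩
    · exact Commute.mul_left ((Commute.refl a).zpow_left p) (hc.symm.zpow_left q)
    · exact Commute.mul_left (hc.zpow_left p) ((Commute.refl b).zpow_left q)
  obtain ⟨ea, hea⟩ : ∃ e : ℤ, χ a = Multiplicative.ofAdd e := ⟨(χ a).toAdd, rfl⟩
  obtain ⟨eb, heb⟩ : ∃ e : ℤ, χ b = Multiplicative.ofAdd e := ⟨(χ b).toAdd, rfl⟩
  have hc0 : χ (a ^ eb * b ^ (-ea)) = 1 := by
    rw [map_mul, map_zpow, map_zpow, hea, heb, ← ofAdd_zsmul, ← ofAdd_zsmul, ← ofAdd_add]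
    have : eb • ea + (-ea) • eb = 0 := by simp only [smul_eq_mul]; ring
    rw [this]
    rfl
  by_cases hea0 : ea = 0
  · by_cases heb0 : eb = 0
    · -- both in the kernel
      exfalso
      have ha1 : χ a = 1 := by rw [hea, hea0]; rfl
      have hb1 : χ b = 1 := by rw [heb, heb0]; rfl
      obtain ⟨j, l, hj⟩ := h.hloc a ha1
      obtain ⟨j', l', hj'⟩ := h.hloc b hb1
      have e1 : t ^ (j + j') * a * (t ^ (j + j'))⁻¹ = g ^ (l * k ^ j') := by
        have : t ^ (j + j') * a * (t ^ (j + j'))⁻¹ =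
            t ^ j' * (t ^ j * a * (t ^ j)⁻¹) * (t ^ j')⁻¹ := by
          rw [add_comm, pow_add]
          group
        rw [this, hj, h.conj]
      have e2 : t ^ (j + j') * b * (t ^ (j + j'))⁻¹ = g ^ (l' * k ^ j) := by
        have : t ^ (j + j') * b * (t ^ (j + j'))⁻¹ =
            t ^ j * (t ^ j' * b * (t ^ j')⁻¹) * (t ^ j)⁻¹ := by
          rw [pow_add]
          group
        rw [this, hj', h.conj]
      set A := l * k ^ j' with hA
      set B' := l' * k ^ j with hB'
      have h3 : a ^ B' * b ^ (-A) = 1 := by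
        have h4 : t ^ (j + j') * (a ^ B' * b ^ (-A)) * (t ^ (j + j'))⁻¹ = 1 := by
          have h5 : t ^ (j + j') * (a ^ B' * b ^ (-A)) * (t ^ (j + j'))⁻¹ =
              (t ^ (j + j') * a ^ B' * (t ^ (j + j'))⁻¹) *
                (t ^ (j + j') * b ^ (-A) * (t ^ (j + j'))⁻¹) := by group
          rw [h5, ← conj_zpow, ← conj_zpow, e1, e2, ← zpow_mul, ← zpow_mul, ← zpow_add]
          have : A * B' + B' * -A = 0 := by ring
          rw [this, zpow_zero]
        have h6 : a ^ B' * b ^ (-A) = (t ^ (j + j'))⁻¹ *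
            (t ^ (j + j') * (a ^ B' * b ^ (-A)) * (t ^ (j + j'))⁻¹) * t ^ (j + j') := by group
        rw [h6, h4]
        group
      obtain ⟨hB0, hA0⟩ := hfree _ _ h3
      have hA0' : A = 0 := by omega
      rw [hA0', zpow_zero] at e1
      have h7 : a = 1 := by
        have : a = (t ^ (j + j'))⁻¹ * (t ^ (j + j') * a * (t ^ (j + j'))⁻¹) * t ^ (j + j') := by
          group
        rw [this, e1]
        group
      have h8 := (hfree 1 0 (by rw [h7]; simp)).1
      exact one_ne_zero h8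
    · refine key _ b hc0 ?_ (hcommpow _ _).2 ?_
      · intro h1
        exact heb0 (hfree _ _ h1).1
      · rw [heb]
        intro h1
        exact heb0 h1
  · refine key _ a hc0 ?_ (hcommpow _ _).1 ?_
    · intro h1
      have := (hfree _ _ h1).2
      omega
    · rw [hea]
      intro h1
      exact hea0 h1

theorem BSD.flat (h : BSD χ t g k) (htf : ∀ g : S, g ≠ 1 → ∀ k : ℤ, k ≠ 0 → g ^ k ≠ 1)
    (hk : k = 1 ∨ k = -1) :
    ∃ φ : Multiplicative ℤ →* MulAut (Multiplicative ℤ),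
      Nonempty (S ≃* Multiplicative ℤ ⋊[φ] Multiplicative ℤ) := by
  refine semidirect_of (x := g) (b := t) ?_ ?_ ?_
  · -- every element is a product
    have hconj : ∀ i j : ℤ, ∃ i' : ℤ, t ^ j * g ^ i = g ^ i' * t ^ j := by
      intro i j
      have h1 : ∀ i : ℤ, ∃ i' : ℤ, t * g ^ i = g ^ i' * t := by
        intro i
        refine ⟨i * k, ?_⟩
        have h2 := h.conj 1 i
        rw [pow_one, pow_one, mul_inv_eq_iff_eq_mul] at h2
        exact h2
      have h1' : ∀ i : ℤ, ∃ i' : ℤ, t⁻¹ * g ^ i = g ^ i' * t⁻¹ := by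
        intro i
        refine ⟨i * k, ?_⟩
        have h2 := h.conj 1 (i * k)
        rw [pow_one, pow_one] at h2
        have h3 : i * k * k = i := by rcases hk with rfl | rfl <;> ring
        rw [h3] at h2
        rw [← h2]
        group
      induction j using Int.induction_on with
      | zero => exact ⟨i, by rw [zpow_zero, one_mul, mul_one]⟩
      | succ j ih =>
        obtain ⟨i', hi'⟩ := ih
        obtain ⟨i'', hi''⟩ := h1 i'
        refine ⟨i'', ?_⟩
        rw [add_comm, zpow_add, zpow_one, mul_assoc, hi', ← mul_assoc, hi'', mul_assoc]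
      | pred j ih =>
        obtain ⟨i', hi'⟩ := ih
        obtain ⟨i'', hi''⟩ := h1' i'
        refine ⟨i'', ?_⟩
        have e : -(j : ℤ) - 1 = -1 + -(j : ℤ) := by ring
        rw [e, zpow_add, zpow_neg_one, mul_assoc, hi', ← mul_assoc, hi'', mul_assoc]
    intro y
    have hy : y ∈ Subgroup.closure ({t, g} : Set S) := by rw [h.hgen]; trivial
    induction hy using Subgroup.closure_induction with
    | mem x hx =>
      rcases hx with rfl | hx
      · exact ⟨0, 1, by rw [zpow_zero, one_mul, zpow_one]⟩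
      · rw [Set.mem_singleton_iff] at hx
        exact ⟨1, 0, by rw [zpow_zero, mul_one, zpow_one, hx]⟩
    | one => exact ⟨0, 0, by simp⟩
    | mul x y _ _ hx hy =>
      obtain ⟨i, j, rfl⟩ := hx
      obtain ⟨i', j', rfl⟩ := hy
      obtain ⟨i'', hi''⟩ := hconj i' j
      refine ⟨i + i'', j + j', ?_⟩
      rw [zpow_add, zpow_add]
      calc g ^ i * t ^ j * (g ^ i' * t ^ j') = g ^ i * (t ^ j * g ^ i') * t ^ j' := by group
        _ = g ^ i * g ^ i'' * (t ^ j * t ^ j') := by rw [hi'']; group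
    | inv x _ hx =>
      obtain ⟨i, j, rfl⟩ := hx
      obtain ⟨i', hi'⟩ := hconj (-i) (-j)
      refine ⟨i', -j, ?_⟩
      rw [← hi']
      group
  · intro i j hij
    have h1 := congrArg χ hij
    rw [map_mul, map_zpow, map_zpow, h.hg, h.ht, one_zpow, one_mul, map_one χ] at h1
    have h2 : j = 0 := by
      have h4 := congrArg Multiplicative.toAdd h1
      simpa using h4
    refine ⟨?_, h2⟩
    rw [h2, zpow_zero, mul_one] at hij
    by_contra hi
    exact htf g h.hne i hi hij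
  · rcases hk with rfl | rfl
    · left
      rw [h.hrel, zpow_one]
    · right
      rw [h.hrel, zpow_neg_one]

end

end Pool.Agent.H26.PD.PZ
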