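import Pool.Agent.H26.PZ.Str

/-!
The strong Tits alternative for subgroups of infinite index: finitely generated subgroups.
-/

set_option autoImplicit false
set_option linter.unusedSectionVars false

namespace Pool.Agent.H26.PD.PZ

open Pool.Agent.Helper158 Pool.Agent.Helper386.PD3 Pool.Agent.H26.PD.PN Pool.Agent.H26.PD.PK
  Pool.Agent.H26.PD.PS Pool.Agent.H26.PD.PT Pool.Agent.H26.PD.PX
open scoped Classical Matrix

noncomputable section

/-- the groups of the torus and of the Klein bottle -/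
def Flat (K : Type) [Group K] : Prop :=
  ∃ φ : Multiplicative ℤ →* MulAut (Multiplicative ℤ),
    Nonempty (K ≃* Multiplicative ℤ ⋊[φ] Multiplicative ℤ)

variable {G : Type} [Group G] {n : ℕ} {w : G →* ℤˣ} {e0 e1 e2 e3 d0 d1 d2 : MR G n}

/-- structure of a finitely generated subgroup -/
theorem struct_sub (hF : Full w e0 e1 e2 e3 d0 d1 d2)
    (hex2 : ∀ v, v ᵥ* e2 = v → v ᵥ* d1 = 0 → ∃ u, u ᵥ* d2 = v) [hG : Group.FG G]
    (htf : ∀ g : G, g ≠ 1 → ∀ k : ℤ, k ≠ 0 → g ^ k ≠ 1) (T : Subgroup G) [Infinite (G ⧸ T)]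
    (hTfg : T.FG) (hno : NoF T)
    (hcoh : ∀ B : Subgroup G, B ≤ T → B.FG → FGK B)
    (hind : T ≠ ⊥ → ∃ χ : T →* Multiplicative ℤ, χ ≠ 1) :
    Cyc T ∨ ∃ (χ : T →* Multiplicative ℤ) (t g : T) (k : ℤ), BSD χ t g k := by
  refine struct ?_ hno ?_ (fun m h hgen => projective_ker hF hex2 h hgen)
    ((Group.fg_iff_subgroup_fg T).2 hTfg) ?_
  · intro g hg k hk h
    exact htf g (fun h1 => hg (Subtype.ext h1)) k hk (by
      have := congrArg Subtype.val h
      simpa using this)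
  · intro B hB
    let B' : Subgroup G := B.map T.subtype
    have hB'le : B' ≤ T := Subgroup.map_subtype_le B
    let e : B ≃* B' := B.equivMapOfInjective T.subtype T.subtype_injective
    have hBfg : Group.FG B := (Group.fg_iff_subgroup_fg B).2 hB
    have hB'fg : Group.FG B' := Group.fg_of_surjective (f := e.toMonoidHom) e.surjective
    exact (hcoh B' hB'le ((Group.fg_iff_subgroup_fg B').1 hB'fg)).equiv e.symm
  · rintro ⟨s, hs⟩
    apply hind
    rintro rfl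
    exact hs (Subsingleton.elim _ _)

theorem htf_sub (htf : ∀ g : G, g ≠ 1 → ∀ k : ℤ, k ≠ 0 → g ^ k ≠ 1) (T : Subgroup G) :
    ∀ g : T, g ≠ 1 → ∀ k : ℤ, k ≠ 0 → g ^ k ≠ 1 := by
  intro g hg k hk h
  exact htf g (fun h1 => hg (Subtype.ext h1)) k hk (by
    have := congrArg Subtype.val h
    simpa using this)

/-- **The strong Tits alternative** for finitely generated subgroups of infinite index. -/
theorem tits_fg (hF : Full w e0 e1 e2 e3 d0 d1 d2)
    (hex2 : ∀ v, v ᵥ* e2 = v → v ᵥ* d1 = 0 → ∃ u, u ᵥ* d2 = v)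
    (hex1 : ∀ v, v ᵥ* dgM w e1 = v → v ᵥ* dgM w d1 = 0 → ∃ u, u ᵥ* dgM w d0 = v)
    [hG : Group.FG G] (htf : ∀ g : G, g ≠ 1 → ∀ k : ℤ, k ≠ 0 → g ^ k ≠ 1) (T : Subgroup G)
    [Infinite (G ⧸ T)] (hTfg : T.FG) (hno : NoF T)
    (hcoh : ∀ B : Subgroup G, B ≤ T → B.FG → FGK B)
    (hind : ∀ B : Subgroup G, B ≤ T → B.FG → B ≠ ⊥ → ∃ χ : B →* Multiplicative ℤ, χ ≠ 1) :
    Cyc T ∨ Flat T := by
  rcases struct_sub hF hex2 htf T hTfg hno hcoh (hind T le_rfl hTfg) with h | ⟨χ, t, g, k, hB⟩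
  · exact Or.inl h
  right
  have htfT := htf_sub htf T
  have htf' : ∀ g : G, g ≠ 1 → ∀ k : ℕ, 0 < k → g ^ k ≠ 1 := fun g hg k hk h =>
    htf g hg k (by omega) (by rwa [zpow_natCast])
  obtain ⟨U, hUT, hUfg, -, hPD⟩ := exists_pd2_fg hF hex2 hex1 htf'
    (fun B hB hBfg m h hgen => FGK.ker (hcoh B hB hBfg) h hgen) (![t, g] : Fin 2 → T)
    (gen_two hB.hgen) (bs_not_triv htfT t g χ hB.ht hB.hg k hB.hne hB.hk hB.hrel hB.hacy)
  have : Infinite (G ⧸ U) := infinite_quot hUT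
  have hZ : HasZ2 T := by
    have htfU := htf_sub htf U
    rcases struct_sub hF hex2 htf U hUfg
      (hno.of_inj (Subgroup.inclusion hUT) (Subgroup.inclusion_injective hUT))
      (fun B hB hBfg => hcoh B (hB.trans hUT) hBfg) (hind U hUT hUfg) with ⟨c, hc⟩ | h
    · exact absurd hc (fun hc => pd2_not_cyclic hPD htfU c hc)
    · obtain ⟨χ', t', g', k', hB'⟩ := h
      have hk' := pd2_bs hPD htfU t' g' k' hB'.hne hB'.hk hB'.hrel hB'.hgen hB'.hacy
      exact (hB'.z2 htfU hk').of_inj (Subgroup.inclusion hUT) (Subgroup.inclusion_injective hUT)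
  exact hB.flat htfT (hB.k_eq htfT hZ)

end

end Pool.Agent.H26.PD.PZ
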